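import Pool.Agent.Helper98.CLTd.Eigen
import Pool.Agent.Helper44.CLTd.CA
import Pool.Agent.Helper1.CLTd.Resolvent
import Pool.Agent.Helper82.CLTd.Inner
import Pool.Agent.Helper50.CLTd.Final

/-! Assembly of the counterexample. -/

namespace Pool.Agent.Helper98.CLTd

open MeasureTheory Set Filter Topology
open scoped ComplexConjugate ENNReal

/-- The channel resolvents. -/
theorem exists_channel_resolvents (R : ℝ) : ∃ T : ℤ → ℂ → E →L[ℂ] E,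
    (∀ i, DifferentiableOn ℂ (T i) {s | 0 < s.re}) ∧
    (∀ i s, 0 < s.re → ‖Th R T i s‖ ≤ 4 * (‖s‖ / s.re)) ∧
    ∀ s, 0 < s.re → ResAt (fun j => T j s) s (1 / (‖s‖ * s.re)) := by
  have h : ∀ j : ℤ, ∃ T : ℂ → (E →L[ℂ] E), DifferentiableOn ℂ T {s | 0 < s.re} ∧
      ∀ s : ℂ, 0 < s.re →
        ‖(mulOp (wR R)) ∘L (T s) ∘L (mulOp (wR R))‖ ≤ 4 * (‖s‖ / s.re) ∧
        ‖T s‖ ≤ 1 / (‖s‖ * s.re) ∧
        (MainCh j → ∀ F : E, ∃ h : E, InForm 1 (T s F) h ∧ ∀ η η' : E, InForm 1 η η' →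
          (∫ r in Ioi (0 : ℝ), h r * η' r) + (∫ r in Ioi (0 : ℝ), s ^ 2 * T s F r * η r)
            = ∫ r in Ioi (0 : ℝ), F r * η r) ∧
        (¬ MainCh j → ∀ F : E, ∃ h : E, InForm 0 (T s F) h ∧ ∀ η η' : E, InForm 0 η η' →
          (∫ r in Ioi (0 : ℝ), h r * η' r)
            + (∫ r in Ioi (0 : ℝ), ((Qch j r : ℂ) + s ^ 2) * T s F r * η r)
            = ∫ r in Ioi (0 : ℝ), F r * η r) := by
    intro j
    by_cases hj : MainCh j
    · obtain ⟨T, hT1, hT2⟩ := Helper1.CLTd.resolvent_family 1 (by norm_num) (fun _ => 0)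
        measurable_const (fun _ _ => le_rfl) 0 (fun r hr => by simp) R
      refine ⟨T, hT1, fun s hs => ⟨(hT2 s hs).1, (hT2 s hs).2.1, fun _ F => ?_,
        fun h => absurd hj h⟩⟩
      obtain ⟨h, h1, h2⟩ := (hT2 s hs).2.2 F
      refine ⟨h, h1, fun η η' hη => ?_⟩
      have := h2 η η' hη
      simpa using this
    · obtain ⟨T, hT1, hT2⟩ := Helper1.CLTd.resolvent_family 0 le_rfl (Qch j)
        (measurable_Qch j) (fun r hr => Qch_nonneg hj hr) ((2 * (j : ℝ) + 1) ^ 2)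
        (fun r hr => Qch_le j hr) R
      exact ⟨T, hT1, fun s hs => ⟨(hT2 s hs).1, (hT2 s hs).2.1, fun h => absurd h hj,
        fun _ F => (hT2 s hs).2.2 F⟩⟩
  choose T hT1 hT2 using h
  exact ⟨T, hT1, fun i s hs => (hT2 i s hs).1, fun s hs =>
    ⟨fun j => (hT2 j s hs).2.1, fun j hj F => (hT2 j s hs).2.2.1 hj F,
      fun j hj F => (hT2 j s hs).2.2.2 hj F⟩⟩

theorem exists_many_eigenvalues : ∃ N₀ : ℕ, ∀ N : ℕ, N₀ ≤ N → ∃ a : ℝ → ℂ, Measurable a ∧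
      (∀ r, ‖a r‖ ≤ 10 ^ 5 / (N : ℝ) ^ 578) ∧ (∀ r, r ∉ Icc (2 : ℝ) ((N : ℝ) ^ 204) → a r = 0) ∧
      ∃ S : Finset ℂ, (N : ℝ) / 100 ≤ S.card ∧ ∀ s ∈ S, 1 / (2 * (N : ℝ) ^ 202) ≤ ‖s‖ ∧ 0 < s.re ∧
        |s.im| ≤ s.re ∧ ∃ u : L2d 2, u ≠ 0 ∧
          HGraph 1 (Vpl (fun r => (v0fun r : ℂ)) a
            ((Ico (1 : ℝ) 2).indicator fun _ => ((1 / (N : ℝ) ^ 10 : ℝ) : ℂ))) u ((-s ^ 2) • u) := by
  obtain ⟨N₀, hCA⟩ := Helper44.CLTd.ca_main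
  obtain ⟨f, u, u', Cf, hCf, hfd, hin⟩ := Helper82.CLTd.inner_solution
  obtain ⟨N₁, hN₁⟩ := exists_nat_gt (12 * Cf)
  refine ⟨max N₀ (max 1000 N₁), fun N hN => ?_⟩
  have hN0 : N₀ ≤ N := le_trans (le_max_left _ _) hN
  have hN1 : 1000 ≤ N := le_trans (le_trans (le_max_left _ _) (le_max_right _ _)) hN
  have hN2 : N₁ ≤ N := le_trans (le_trans (le_max_right _ _) (le_max_right _ _)) hN
  have hNr : (1000 : ℝ) ≤ N := by exact_mod_cast hN1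
  have hNpos : (0 : ℝ) < N := by linarith
  set x : ℝ := (N : ℝ)⁻¹ with hxdef
  have hx : 0 < x := by positivity
  have hx1 : x ≤ 1 / 1000 := by
    rw [hxdef, inv_le_comm₀ hNpos (by norm_num)]; norm_num; exact_mod_cast hN1
  have hNx : (N : ℝ) = x⁻¹ := by rw [hxdef, inv_inv]
  have hxC : Cf * (3 * x ^ 196) ≤ 1 / 4 := by
    have h1 : 12 * Cf * x ≤ 1 := by
      have : 12 * Cf ≤ N := hN₁.le.trans (by exact_mod_cast hN2)
      calc 12 * Cf * x ≤ N * x := by gcongr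
        _ = 1 := by rw [hNx]; field_simp
    have h2 : x ^ 195 ≤ 1 := pow_le_one₀ hx.le (by linarith)
    calc Cf * (3 * x ^ 196) = (12 * Cf * x) * x ^ 195 / 4 := by ring
      _ ≤ 1 * 1 / 4 := by gcongr
      _ = 1 / 4 := by norm_num
  obtain ⟨T, hTd, hTn, hres⟩ := exists_channel_resolvents ((x ^ 204)⁻¹)
  have hfs : ∀ s : ℂ, ‖s‖ < 1 / 2 → ‖f s - s‖ ≤ Cf * ‖s‖ ^ 2 := fun s hs => (hin s hs).1
  have hx578 := pow_pos hx 578
  have h2A : ∀ a : C(Icc (2 : ℝ) ((x ^ 204)⁻¹), ℂ), ‖a‖ ≤ 10 ^ 5 * x ^ 578 →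
      ‖a‖ ≤ 2 * (10 ^ 5 * x ^ 578) := fun a ha => by linarith
  have hann : ∀ s : ℂ, x ^ 200 / (2 * (N : ℝ) ^ 2) ≤ ‖s‖ → ‖s‖ ≤ 2 * x ^ 200 / (N : ℝ) ^ 2 →
      x ^ 202 / 2 ≤ ‖s‖ ∧ ‖s‖ ≤ 2 * x ^ 202 := by
    intro s h1 h2
    rw [hNx] at h1 h2
    have e1 : x ^ 200 / (2 * (x⁻¹) ^ 2) = x ^ 202 / 2 := by field_simp
    have e2 : 2 * x ^ 200 / (x⁻¹) ^ 2 = 2 * x ^ 202 := by field_simp
    rw [e1] at h1; rw [e2] at h2
    exact ⟨h1, h2⟩
  obtain ⟨a, haA, S, hS, hSs⟩ := hCA N hN0 (x ^ 200) (x ^ 196) ((x ^ 204)⁻¹) (by positivity)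
    (by rw [hNx]; field_simp) (by
      have := pow_le_one₀ (n := 196) hx.le (by linarith : x ≤ 1)
      exact this) (by rw [hNx]; field_simp) (Ux x) (by
      unfold Ux
      rw [hNx]
      have : x ^ 200 / (2 * x⁻¹ ^ 4) = x ^ 204 / 2 := by field_simp
      rw [this]) (Zf ((x ^ 204)⁻¹) (x ^ 10) T f) (10 ^ 5 * x ^ 578) (x ^ 394 / 10)
    (22 * x ^ 382) (4 / 10 ^ 5 / x ^ 158) (by positivity) (by positivity)
    (fun a ha => Zf_differentiableOn hx hx1 hTd hTn hfd (h2A a ha))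
    (fun a ha s hs => Zf_norm_le hx hx1 hs hTn hCf hxC hfs (h2A a ha))
    (fun a ha s h1 h2 h3 => Zf_norm_ge hx hx1 (hann s h1 h2).1 (hann s h1 h2).2 h3 hTn hCf hxC hfs
      (h2A a ha))
    (fun a b ha hb s hs => Zf_lipschitz hx hx1 hs hTn hCf hxC hfs hb ha)
    (by
      rw [hNx]
      have h1 : 220 * x ^ 382 ≤ x ^ 344 := pow_small hx hx1 (by norm_num) 344 38 (by norm_num)
      have h2 : x⁻¹ ^ 50 * (x ^ 394 / 10) = x ^ 344 / 10 := by field_simp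
      rw [h2]; linarith)
    (by
      have h1 : 1000 * x ^ 196 * (22 * x ^ 382) = 22000 * x ^ 578 := by ring
      rw [h1]; nlinarith)
    (by
      have h1 : 2000 * x ^ 196 * (4 / 10 ^ 5 / x ^ 158) = 8 / 100 * x ^ 38 := by field_simp; ring
      rw [h1]
      have := pow_le_one₀ (n := 38) hx.le (by linarith : x ≤ 1)
      linarith)
  refine ⟨extC a, measurable_extC a, ?_, ?_, S, hS, ?_⟩
  · intro r
    refine (norm_extC_le a r).trans (haA.trans (le_of_eq ?_))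
    rw [hNx]; field_simp
  · intro r hr
    apply extC_of_notMem
    have : (N : ℝ) ^ 204 = (x ^ 204)⁻¹ := by rw [hNx, inv_pow]
    rwa [this] at hr
  · intro s hs
    obtain ⟨h1, h2, h3, h4, h5⟩ := hSs s hs
    obtain ⟨k1, k2⟩ := hann s h1 h2
    have hsU := mem_Ux_of hx hx1 k1 k2 h3
    have hre := re_pos_of_mem_Ux hx hsU
    have hs1 := norm_le_of_mem_Ux hx hsU
    have hs2 : ‖s‖ ≤ 1 / 16 := hs1.trans (x_small hx hx1)
    refine ⟨?_, hre, h4, ?_⟩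
    · rw [hNx]
      have : 1 / (2 * x⁻¹ ^ 202) = x ^ 202 / 2 := by field_simp
      rw [this]; exact k1
    · have hβ : (1 / (N : ℝ) ^ 10 : ℝ) = x ^ 10 := by rw [hNx]; field_simp
      rw [hβ]
      obtain ⟨-, hu1, hu1', hc, hc', hd, hb⟩ := hin s (by linarith)
      have hW := W10_ne hx hx1 hsU hTn (h2A a haA)
      refine eigen_of_matching (R_ge hx hx1) (by positivity) hre (hres s hre)
        (fun i => tau_bound hx hsU hTn i) (α := 2 * 10 ^ 5 * x ^ 170) ?_ (num_q hx hx1)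
        hu1 hu1' hc hc' hd hb hW ?_
      · refine (norm_Aop_le a).trans ?_
        calc ‖a‖ * ((x ^ 204)⁻¹) ^ 2 ≤ 2 * (10 ^ 5 * x ^ 578) * ((x ^ 204)⁻¹) ^ 2 := by
              gcongr; exact h2A a haA
          _ = _ := by field_simp
      · rw [← pairL_eS_Aop] at h5
        unfold Zf at h5
        linear_combination -h5

theorem not_DHK (γ σ C : ℝ) (hγ : 0 < γ) (hγ2 : γ < 1 / 500) : ¬ DHK 2 γ σ C :=
  Helper50.CLTd.not_DHK_of_eigen γ σ C hγ hγ2 exists_many_eigenvalues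

end Pool.Agent.Helper98.CLTd
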