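import Pool.Agent.Helper98.CLTd.Ops

/-! The scattering matrix elements `Wf` and their bounds. -/

namespace Pool.Agent.Helper98.CLTd

open MeasureTheory Set Filter Topology
open scoped ComplexConjugate ENNReal

/-- The weighted channel resolvent. -/
noncomputable def Th (R : ℝ) (T : ℤ → ℂ → E →L[ℂ] E) (i : ℤ) (s : ℂ) : E →L[ℂ] E :=
  (mulOp (wR R)) ∘L (T i s) ∘L (mulOp (wR R))

/-- The solution of the Lippmann-Schwinger equation in channel `i`, started in channel `j`. -/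
noncomputable def Vf (R β : ℝ) (T : ℤ → ℂ → E →L[ℂ] E) (a : C(Icc (2 : ℝ) R, ℂ)) (s : ℂ)
    (j i : ℤ) : E :=
  Vs (Aop a) (Bop β) (fun i => Th R T i s) (eS R s) j i

/-- The scattering matrix elements. -/
noncomputable def Wf (R β : ℝ) (T : ℤ → ℂ → E →L[ℂ] E) (a : C(Icc (2 : ℝ) R, ℂ)) (s : ℂ)
    (i j : ℤ) : ℂ := pairL (eS R s) (Vf R β T a s j i)

lemma exists_balanced {α b : ℝ} (hα : 0 < α) (hb : 0 < b) : ∃ t : ℝ, 0 < t ∧ α * t ^ 2 = b := by
  refine ⟨Real.sqrt (b / α), by positivity, ?_⟩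
  rw [Real.sq_sqrt (by positivity)]; field_simp

lemma pairL_comp_mulOp_norm {m : ℝ → ℂ} (hm : Measurable m) {C : ℝ} (hC : ∀ r, ‖m r‖ ≤ C) (u : E) :
    ‖pairL u ∘L mulOp m‖ ≤ ‖mulOp m u‖ := by
  refine ContinuousLinearMap.opNorm_le_bound _ (norm_nonneg _) fun x => ?_
  rw [ContinuousLinearMap.comp_apply, pairL_mulOp hm hC]
  exact norm_pairL_apply_le _ _

variable {R β : ℝ} {T : ℤ → ℂ → E →L[ℂ] E} {s : ℂ} {τ : ℝ}

lemma Wf_bounds (hR : 2 ≤ R) (hβ : 0 < β) (hT : ∀ i, ‖Th R T i s‖ ≤ τ) (hs : 0 ≤ s.re)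
    {Ā : ℝ} (hĀ : 0 < Ā) {a : C(Icc (2 : ℝ) R, ℂ)} (ha : ‖a‖ ≤ Ā) {α α' : ℝ}
    (hα : α = Ā * R ^ 2) (hα' : α' = Ā * R ^ (3 / 2 : ℝ)) (hq : (α + 4 * β) * τ ≤ 1 / 4) :
    (∀ j, ‖Wf R β T a s j j‖ ≤ 4 * τ * α' * β + 512 * α ^ 2 * β ^ 2 * τ ^ 3) ∧
    (∀ j, ‖Wf R β T a s (j + 1) j - pairL (eS R s) (Aop a (eS R s))‖
      ≤ τ ^ 2 * (4 * α * α' * β + 4 * β * α' ^ 2) + 1024 * α ^ 3 * β ^ 2 * τ ^ 4) ∧
    (∀ j, ‖Wf R β T a s (j - 1) j - pairL (eS R s) (Bop β (eS R s))‖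
      ≤ 256 * α * β ^ 2 * τ ^ 2) := by
  have hR0 : 0 < R := by linarith
  have hτ : 0 ≤ τ := (norm_nonneg _).trans (hT 0)
  have hα0 : 0 < α := by rw [hα]; positivity
  have hA : ‖Aop a‖ ≤ α := (norm_Aop_le a).trans (by rw [hα]; gcongr)
  have hB : ‖Bop β‖ ≤ 4 * β := norm_Bop_le hβ.le
  have he : ‖eS R s‖ ≤ 1 := norm_eS_le hs
  have hℓ : ‖pairL (eS R s)‖ ≤ 1 := (norm_pairL_le _).trans he
  have hAe : ‖Aop a (eS R s)‖ ≤ α' := (norm_Aop_eS_le hR a hs).trans (by rw [hα']; gcongr)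
  have hBe : ‖Bop β (eS R s)‖ ≤ 2 * β := norm_Bop_eS_le hR hβ.le hs
  have hAℓ : ‖pairL (eS R s) ∘L Aop a‖ ≤ α' :=
    (pairL_comp_mulOp_norm (measurable_symA a) (norm_symA_le a) _).trans hAe
  have hBℓ : ‖pairL (eS R s) ∘L Bop β‖ ≤ 2 * β :=
    (pairL_comp_mulOp_norm (measurable_symB β) (norm_symB_le hβ.le) _).trans hBe
  obtain ⟨t, ht, htb⟩ := exists_balanced hα0 (by positivity : 0 < 4 * β)
  have e0 : 4 * β * t⁻¹ = α * t := by rw [← htb]; field_simp
  have e1 : α * t + 4 * β * t⁻¹ = 2 * (α * t) := by rw [e0]; ring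
  have e2 : (α * t) ^ 2 = 4 * α * β := by
    calc (α * t) ^ 2 = α * (α * t ^ 2) := by ring
      _ = _ := by rw [htb]; ring
  have hρ : (α * t + 4 * β * t⁻¹) * τ ≤ 1 / 2 := by
    have h1 : α * t + 4 * β * t⁻¹ ≤ 2 * (α + 4 * β) := by
      rw [e1]
      have : (α * t) ≤ α + 4 * β := by
        apply le_of_sq_le_sq _ (by positivity)
        rw [e2]; nlinarith
      linarith
    calc _ ≤ 2 * (α + 4 * β) * τ := by gcongr
      _ = 2 * ((α + 4 * β) * τ) := by ring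
      _ ≤ _ := by linarith
  refine ⟨fun j => ?_, fun j => ?_, fun j => ?_⟩
  · have h := norm_diag_le (j := j) hA hB hT he hℓ hAe hBe hAℓ hBℓ ht hρ
    refine h.trans (le_of_eq ?_)
    rw [e1]
    have : 2 * (2 * (α * t)) ^ 4 * τ ^ 3 = 32 * ((α * t) ^ 2) ^ 2 * τ ^ 3 := by ring
    rw [this, e2]; ring
  · have h := norm_raise_le (j := j) hA hB hT he hℓ hAe hBe hAℓ hBℓ ht hρ
    refine h.trans (le_of_eq ?_)
    rw [e1]
    have : t⁻¹ * (2 * (2 * (α * t)) ^ 5 * τ ^ 4) = 64 * α * ((α * t) ^ 2) ^ 2 * τ ^ 4 := by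
      field_simp; ring
    rw [this, e2]; ring
  · have h := norm_lower_le (j := j) hA hB hT he hℓ ht hρ
    refine h.trans (le_of_eq ?_)
    rw [e1]
    have : t * (2 * (2 * (α * t)) ^ 3 * τ ^ 2) = 16 * (α * t ^ 2) * (α * t) ^ 2 * τ ^ 2 := by ring
    rw [this, e2, htb]; ring

lemma differentiableOn_Wf_s {U : Set ℂ} (hU : IsOpen U) (hβ : 0 ≤ β)
    (hTd : ∀ i, DifferentiableOn ℂ (T i) U)
    (hT : ∀ s ∈ U, ∀ i, ‖Th R T i s‖ ≤ τ) (hs : ∀ s ∈ U, 0 ≤ s.re)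
    {α : ℝ} {a : C(Icc (2 : ℝ) R, ℂ)} (hA : ‖Aop a‖ ≤ α) (hq : (α + 4 * β) * τ ≤ 1 / 4)
    (i j : ℤ) : DifferentiableOn ℂ (fun s => Wf R β T a s i j) U := by
  have hed : DifferentiableOn ℂ (eS R) U := fun s _ => (hasDerivAt_eS R s).differentiableWithinAt
  have hV : DifferentiableOn ℂ (fun s => Vf R β T a s j i) U := by
    refine differentiableOn_Vs (A := fun _ => Aop a) (B := fun _ => Bop β) (T := fun i s => Th R T i s)
      (e := eS R) (α := α) (b := 4 * β) (τ := τ) hU (differentiableOn_const _)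
      (differentiableOn_const _) ?_ hed (fun _ _ => hA) (fun _ _ => norm_Bop_le hβ) hT
      (fun s hs' => norm_eS_le (hs s hs')) (by linarith) i
    intro i
    unfold Th
    exact (differentiableOn_const _).clm_comp ((hTd i).clm_comp (differentiableOn_const _))
  unfold Wf
  exact ((pairL.differentiable.comp_differentiableOn hed)).clm_apply hV

lemma differentiableOn_Wf_z (hβ : 0 ≤ β)
    (hT : ∀ i, ‖Th R T i s‖ ≤ τ) (hs : 0 ≤ s.re)
    {α Ā : ℝ} (a a' : C(Icc (2 : ℝ) R, ℂ)) (hα : Ā * R ^ 2 ≤ α) (hq : (α + 4 * β) * τ ≤ 1 / 4)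
    (i j : ℤ) : DifferentiableOn ℂ (fun z : ℂ => Wf R β T (a + z • a') s i j)
      {z | ‖a + z • a'‖ < Ā} := by
  have hopen : IsOpen {z : ℂ | ‖a + z • a'‖ < Ā} := by
    apply isOpen_lt _ continuous_const
    fun_prop
  have hV : DifferentiableOn ℂ (fun z : ℂ => Vf R β T (a + z • a') s j i) {z | ‖a + z • a'‖ < Ā} := by
    refine differentiableOn_Vs (A := fun z => Aop (a + z • a')) (B := fun _ => Bop β)
      (T := fun i _ => Th R T i s)
      (e := fun _ => eS R s) (α := α) (b := 4 * β) (τ := τ) hopen ?_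
      (differentiableOn_const _) (fun _ => differentiableOn_const _) (differentiableOn_const _)
      ?_ (fun _ _ => norm_Bop_le hβ) (fun _ _ => hT)
      (fun _ _ => norm_eS_le hs) (by linarith) i
    · simp only [Aop_add, Aop_smul]
      fun_prop
    · intro z hz
      refine (norm_Aop_le _).trans (le_trans ?_ hα)
      have : ‖a + z • a'‖ ≤ Ā := le_of_lt hz
      gcongr
  unfold Wf
  exact (differentiableOn_const _).clm_apply hV

lemma pairL_eS_Aop (a : C(Icc (2 : ℝ) R, ℂ)) (s : ℂ) :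
    pairL (eS R s) (Aop a (eS R s))
      = ∫ r in Icc (2 : ℝ) R, extC a r * Complex.exp (-2 * s * (r - 1)) := by
  rw [pairL_apply]
  have h1 : ∫ r in Ioi (0 : ℝ), eS R s r * Aop a (eS R s) r
      = ∫ r in Ioi (0 : ℝ), (Icc (2 : ℝ) R).indicator
        (fun r : ℝ => extC a r * Complex.exp (-2 * s * (r - 1))) r := by
    apply integral_congr_ae
    filter_upwards [Aop_ae a (eS R s), eS_ae R s] with r h1 h2
    rw [h1, h2]
    by_cases h : r ∈ Icc (2 : ℝ) R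
    · rw [indicator_of_mem h, symA, eSf]
      have h5 : r ∈ Icc (1 : ℝ) R := ⟨by linarith [h.1], h.2⟩
      rw [wR_of_mem h5]
      have h0 : (r : ℂ) ≠ 0 := by
        have : 0 < r := by linarith [h.1]
        exact_mod_cast this.ne'
      have h6 : Complex.exp (-2 * s * ((r : ℂ) - 1)) = Complex.exp (-s * (r - 1)) ^ 2 := by
        rw [← Complex.exp_nat_mul]; congr 1; push_cast; ring
      rw [h6]; push_cast; field_simp
    · rw [indicator_of_notMem h, symA, extC_of_notMem a h]; simp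
  rw [h1, integral_indicator measurableSet_Icc, Measure.restrict_restrict measurableSet_Icc]
  have h1 : Icc (2 : ℝ) R ∩ Ioi 0 = Icc 2 R := by
    ext x; simp only [mem_inter_iff, mem_Ioi, mem_Icc]
    constructor
    · exact fun h => h.1
    · intro h; exact ⟨h, by linarith [h.1]⟩
  rw [h1]

lemma pairL_eS_Bop (hR : 2 ≤ R) (hβ : 0 ≤ β) (s : ℂ) :
    pairL (eS R s) (Bop β (eS R s))
      = ∫ r in Ico (1 : ℝ) 2, (β : ℂ) * Complex.exp (-2 * s * (r - 1)) := by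
  rw [pairL_apply]
  have h1 : ∫ r in Ioi (0 : ℝ), eS R s r * Bop β (eS R s) r
      = ∫ r in Ioi (0 : ℝ), (Ico (1 : ℝ) 2).indicator
        (fun r : ℝ => (β : ℂ) * Complex.exp (-2 * s * (r - 1))) r := by
    apply integral_congr_ae
    filter_upwards [Bop_ae hβ (eS R s), eS_ae R s] with r h1 h2
    rw [h1, h2]
    by_cases h : r ∈ Ico (1 : ℝ) 2
    · rw [indicator_of_mem h, symB, eSf, indicator_of_mem h]
      have h5 : r ∈ Icc (1 : ℝ) R := ⟨h.1, by linarith [h.2]⟩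
      rw [wR_of_mem h5]
      have h0 : (r : ℂ) ≠ 0 := by
        have : 0 < r := by linarith [h.1]
        exact_mod_cast this.ne'
      have h6 : Complex.exp (-2 * s * ((r : ℂ) - 1)) = Complex.exp (-s * (r - 1)) ^ 2 := by
        rw [← Complex.exp_nat_mul]; congr 1; push_cast; ring
      rw [h6]; push_cast; field_simp
    · rw [indicator_of_notMem h, symB, indicator_of_notMem h]; simp
  rw [h1, integral_indicator measurableSet_Ico, Measure.restrict_restrict measurableSet_Ico]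
  have h1 : Ico (1 : ℝ) 2 ∩ Ioi 0 = Ico 1 2 := by
    ext x; simp only [mem_inter_iff, mem_Ioi, mem_Ico]
    constructor
    · exact fun h => h.1
    · intro h; exact ⟨h, by linarith [h.1]⟩
  rw [h1]

lemma norm_b0_sub_le (hR : 2 ≤ R) (hβ : 0 ≤ β) {s : ℂ} (hs : ‖s‖ ≤ 1 / 16) :
    ‖pairL (eS R s) (Bop β (eS R s)) - β‖ ≤ β / 4 := by
  rw [pairL_eS_Bop hR hβ]
  have h1 : (β : ℂ) = ∫ r in Ico (1 : ℝ) 2, (β : ℂ) := by
    rw [setIntegral_const, Measure.real, Real.volume_Ico]; norm_num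
  have hint : IntegrableOn (fun r : ℝ => (β : ℂ) * Complex.exp (-2 * s * (r - 1))) (Ico 1 2) := by
    apply (Continuous.integrableOn_Icc (a := 1) (b := 2) (by fun_prop)).mono_set Ico_subset_Icc_self
  have hint2 : IntegrableOn (fun _ : ℝ => (β : ℂ)) (Ico 1 2) :=
    integrableOn_const (by rw [Real.volume_Ico]; exact ENNReal.ofReal_ne_top)
  nth_rewrite 2 [h1]
  rw [← integral_sub hint hint2]
  have h2 : ∀ r ∈ Ico (1 : ℝ) 2, ‖(β : ℂ) * Complex.exp (-2 * s * (r - 1)) - β‖ ≤ β / 4 := by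
    intro r hr
    have e : (β : ℂ) * Complex.exp (-2 * s * (r - 1)) - β
        = β * (Complex.exp (-2 * s * (r - 1)) - 1) := by ring
    rw [e, norm_mul, Complex.norm_real, Real.norm_eq_abs, abs_of_nonneg hβ]
    have h3 : ‖-2 * s * ((r : ℂ) - 1)‖ ≤ 1 / 8 := by
      have : ((r : ℂ) - 1) = ((r - 1 : ℝ) : ℂ) := by push_cast; ring
      rw [norm_mul, norm_mul, this, Complex.norm_real, Real.norm_eq_abs,
        abs_of_nonneg (by linarith [hr.1])]
      simp only [norm_neg, Complex.norm_ofNat]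
      have h0 : 0 ≤ r - 1 := by linarith [hr.1]
      calc 2 * ‖s‖ * (r - 1) ≤ 2 * (1 / 16) * 1 := by gcongr; linarith [hr.2]
        _ = 1 / 8 := by norm_num
    have h4 := Complex.norm_exp_sub_one_le (x := -2 * s * ((r : ℂ) - 1)) (by linarith)
    calc β * ‖Complex.exp (-2 * s * (r - 1)) - 1‖ ≤ β * (2 * (1 / 8)) := by
          gcongr; exact h4.trans (by gcongr)
      _ = β / 4 := by ring
  have h3 := norm_setIntegral_le_of_norm_le_const (μ := volume) (s := Ico (1 : ℝ) 2)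
    (f := fun r : ℝ => (β : ℂ) * Complex.exp (-2 * s * (r - 1)) - β) (C := β / 4)
    (by rw [Real.volume_Ico]; exact ENNReal.ofReal_lt_top) h2
  refine h3.trans (le_of_eq ?_)
  rw [Measure.real, Real.volume_Ico]; norm_num

end Pool.Agent.Helper98.CLTd
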