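import Pool.Agent.Helper98.CLTd.Stmt

/-! The definitions of `Stmt.lean` agree with those of `Defs.lean`. -/

namespace Pool.Agent.Helper98.CLTd

open MeasureTheory SchwartzMap
open scoped ComplexConjugate SchwartzMap ENNReal

lemma hgraph_iff {d : ℕ} (ħ : ℝ) (V : EuclideanSpace ℝ (Fin d) → ℂ) (u g : L2d d) :
    Stmt.HGraph ħ V u g ↔ HGraph ħ V u g := Iff.rfl

lemma inKer_iff {d : ℕ} (ħ : ℝ) (V : EuclideanSpace ℝ (Fin d) → ℂ) (E : ℂ) (k : ℕ) (u : L2d d) :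
    Stmt.InKer ħ V E k u ↔ u ∈ genSpace ħ V E k := by
  induction k generalizing u with
  | zero => exact (Submodule.mem_bot ℂ).symm
  | succ k ih =>
    constructor
    · rintro ⟨g, h1, h2⟩
      exact ⟨g, h1, (ih _).1 h2⟩
    · rintro ⟨g, h1, h2⟩
      exact ⟨g, h1, (ih _).2 h2⟩

lemma algMult_eq {d : ℕ} (ħ : ℝ) (V : EuclideanSpace ℝ (Fin d) → ℂ) (E : ℂ) :
    Stmt.algMult ħ V E = algMult ħ V E := by
  unfold Stmt.algMult algMult
  have h : Submodule.span ℂ (Stmt.genVectors ħ V E) = ⨆ k, genSpace ħ V E k := by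
    rw [Submodule.iSup_eq_span]
    congr 1
    ext u
    rw [Set.mem_iUnion]
    exact exists_congr fun k => inKer_iff ħ V E k u
  rw [h]

lemma DHK_iff (d : ℕ) (γ σ C : ℝ) : Stmt.DHK d γ σ C ↔ DHK d γ σ C := by
  unfold Stmt.DHK DHK Stmt.eigenSum
  simp only [algMult_eq]
  exact Iff.rfl

end Pool.Agent.Helper98.CLTd
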