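import Mathlib

/-! Definitions for the complex Lieb-Thirring inequality in dimension `d`. -/

namespace Pool.Agent.Helper98.CLTd

open MeasureTheory SchwartzMap
open scoped ComplexConjugate SchwartzMap ENNReal

/-- The Hilbert space of square integrable complex functions on `ℝ^d`. -/
abbrev L2d (d : ℕ) : Type := Lp ℂ 2 (volume : Measure (EuclideanSpace ℝ (Fin d)))

/-- `v` is the weak (distributional) partial derivative of `u` in the direction `x_i`, both in
`L2d`. Thus `u` lies in the Sobolev space `H^1` exactly when such a `v` exists for every `i`. -/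
def IsWeakPartial {d : ℕ} (i : Fin d) (u v : L2d d) : Prop :=
  ∀ φ : 𝓢(EuclideanSpace ℝ (Fin d), ℂ),
    ∫ x, u x * fderiv ℝ φ x (EuclideanSpace.single i 1) = - ∫ x, v x * φ x

/-- The graph of the Schrodinger operator `-ħ^2 Δ + V` in `L2d`, defined as the operator
of the form `ħ^2 ∫ ∇u · conj ∇φ + ∫ V u conj φ` with form domain `H^1`. -/
def HGraph {d : ℕ} (ħ : ℝ) (V : EuclideanSpace ℝ (Fin d) → ℂ) (u g : L2d d) : Prop :=
  ∃ u' : Fin d → L2d d, (∀ i, IsWeakPartial i u (u' i)) ∧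
    ∀ (φ : L2d d) (φ' : Fin d → L2d d), (∀ i, IsWeakPartial i φ (φ' i)) →
      Integrable (fun x => V x * u x * conj (φ x)) volume ∧
      (ħ : ℂ) ^ 2 * (∑ i, ∫ x, u' i x * conj (φ' i x)) + ∫ x, V x * u x * conj (φ x)
        = ∫ x, g x * conj (φ x)

variable {d : ℕ}

lemma int_mul_schwartz (f : L2d d) (ψ : 𝓢(EuclideanSpace ℝ (Fin d), ℂ)) :
    Integrable (fun ξ => f ξ * ψ ξ) volume :=
  MemLp.integrable_mul (Lp.memLp f) (ψ.memLp 2 volume)

lemma int_mul_fderiv (f : L2d d) (ψ : 𝓢(EuclideanSpace ℝ (Fin d), ℂ))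
    (v : EuclideanSpace ℝ (Fin d)) :
    Integrable (fun ξ => f ξ * fderiv ℝ ψ ξ v) volume := by
  have h := int_mul_schwartz f (LineDeriv.lineDerivOp v ψ)
  refine h.congr ?_
  filter_upwards with x
  rw [SchwartzMap.lineDerivOp_apply_eq_fderiv]

lemma int_mul_conj (f g : L2d d) : Integrable (fun ξ => f ξ * conj (g ξ)) volume := by
  have h2 : MemLp (fun ξ => conj (g ξ)) 2 volume := by
    refine (Lp.memLp g).of_le ?_ ?_
    · exact Complex.continuous_conj.comp_aestronglyMeasurable (Lp.memLp g).1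
    · filter_upwards with ξ; simp
  exact MemLp.integrable_mul (Lp.memLp f) h2

lemma IsWeakPartial.add {i : Fin d} {u v u' v' : L2d d} (h : IsWeakPartial i u u')
    (h' : IsWeakPartial i v v') : IsWeakPartial i (u + v) (u' + v') := by
  intro φ
  have e1 : ∫ x, (u + v : L2d d) x * fderiv ℝ φ x (EuclideanSpace.single i 1)
      = ∫ x, (u x * fderiv ℝ φ x (EuclideanSpace.single i 1)
          + v x * fderiv ℝ φ x (EuclideanSpace.single i 1)) := by
    apply integral_congr_ae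
    filter_upwards [Lp.coeFn_add u v] with x hx
    rw [hx, Pi.add_apply]; ring
  have e2 : ∫ x, (u' + v' : L2d d) x * φ x = ∫ x, (u' x * φ x + v' x * φ x) := by
    apply integral_congr_ae
    filter_upwards [Lp.coeFn_add u' v'] with x hx
    rw [hx, Pi.add_apply]; ring
  rw [e1, e2, integral_add (int_mul_fderiv u φ _) (int_mul_fderiv v φ _),
    integral_add (int_mul_schwartz u' φ) (int_mul_schwartz v' φ), h φ, h' φ]
  ring

lemma IsWeakPartial.smul {i : Fin d} {u u' : L2d d} (c : ℂ) (h : IsWeakPartial i u u') :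
    IsWeakPartial i (c • u) (c • u') := by
  intro φ
  have e1 : ∫ x, (c • u : L2d d) x * fderiv ℝ φ x (EuclideanSpace.single i 1)
      = ∫ x, c * (u x * fderiv ℝ φ x (EuclideanSpace.single i 1)) := by
    apply integral_congr_ae
    filter_upwards [Lp.coeFn_smul c u] with x hx
    rw [hx, Pi.smul_apply, smul_eq_mul]; ring
  have e2 : ∫ x, (c • u' : L2d d) x * φ x = ∫ x, c * (u' x * φ x) := by
    apply integral_congr_ae
    filter_upwards [Lp.coeFn_smul c u'] with x hx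
    rw [hx, Pi.smul_apply, smul_eq_mul]; ring
  rw [e1, e2, integral_const_mul, integral_const_mul, h φ]
  ring

lemma ae_zero : ∀ᵐ x, (0 : L2d d) x = 0 := by
  filter_upwards [Lp.coeFn_zero ℂ 2 (volume : Measure (EuclideanSpace ℝ (Fin d)))] with x hx
  rw [hx]; rfl

lemma IsWeakPartial.zero (i : Fin d) : IsWeakPartial i (0 : L2d d) 0 := by
  intro φ
  have e1 : ∫ x, (0 : L2d d) x * fderiv ℝ φ x (EuclideanSpace.single i 1) = 0 := by
    rw [← integral_zero (EuclideanSpace ℝ (Fin d)) ℂ (μ := volume)]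
    apply integral_congr_ae
    filter_upwards [ae_zero (d := d)] with x hx
    rw [hx, zero_mul]
  have e2 : ∫ x, (0 : L2d d) x * φ x = 0 := by
    rw [← integral_zero (EuclideanSpace ℝ (Fin d)) ℂ (μ := volume)]
    apply integral_congr_ae
    filter_upwards [ae_zero (d := d)] with x hx
    rw [hx, zero_mul]
  rw [e1, e2, neg_zero]

lemma HGraph.add {ħ : ℝ} {V : EuclideanSpace ℝ (Fin d) → ℂ} {u v g k : L2d d}
    (h : HGraph ħ V u g) (h' : HGraph ħ V v k) : HGraph ħ V (u + v) (g + k) := by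
  obtain ⟨u', hu, hfu⟩ := h
  obtain ⟨v', hv, hfv⟩ := h'
  refine ⟨fun i => u' i + v' i, fun i => (hu i).add (hv i), ?_⟩
  intro φ φ' hφ
  obtain ⟨i1, e1⟩ := hfu φ φ' hφ
  obtain ⟨i2, e2⟩ := hfv φ φ' hφ
  have hVae : (fun x => V x * (u + v : L2d d) x * conj (φ x)) =ᵐ[volume]
      fun x => V x * u x * conj (φ x) + V x * v x * conj (φ x) := by
    filter_upwards [Lp.coeFn_add u v] with x hx
    rw [hx, Pi.add_apply]; ring
  refine ⟨(i1.add i2).congr hVae.symm, ?_⟩
  have a1 : ∀ i, ∫ x, (u' i + v' i : L2d d) x * conj (φ' i x)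
      = (∫ x, u' i x * conj (φ' i x)) + ∫ x, v' i x * conj (φ' i x) := by
    intro i
    rw [← integral_add (int_mul_conj _ _) (int_mul_conj _ _)]
    apply integral_congr_ae
    filter_upwards [Lp.coeFn_add (u' i) (v' i)] with x hx
    rw [hx, Pi.add_apply]; ring
  have a2 : ∫ x, (g + k : L2d d) x * conj (φ x)
      = (∫ x, g x * conj (φ x)) + ∫ x, k x * conj (φ x) := by
    rw [← integral_add (int_mul_conj _ _) (int_mul_conj _ _)]
    apply integral_congr_ae
    filter_upwards [Lp.coeFn_add g k] with x hx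
    rw [hx, Pi.add_apply]; ring
  simp only [a1, Finset.sum_add_distrib]
  rw [a2, integral_congr_ae hVae, integral_add i1 i2, ← e1, ← e2]
  ring

lemma HGraph.smul {ħ : ℝ} {V : EuclideanSpace ℝ (Fin d) → ℂ} {u g : L2d d} (c : ℂ)
    (h : HGraph ħ V u g) : HGraph ħ V (c • u) (c • g) := by
  obtain ⟨u', hu, hfu⟩ := h
  refine ⟨fun i => c • u' i, fun i => (hu i).smul c, ?_⟩
  intro φ φ' hφ
  obtain ⟨i1, e1⟩ := hfu φ φ' hφ
  have hVae : (fun x => V x * (c • u : L2d d) x * conj (φ x)) =ᵐ[volume]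
      fun x => c * (V x * u x * conj (φ x)) := by
    filter_upwards [Lp.coeFn_smul c u] with x hx
    rw [hx, Pi.smul_apply, smul_eq_mul]; ring
  refine ⟨(i1.const_mul c).congr hVae.symm, ?_⟩
  have a1 : ∀ i, ∫ x, (c • u' i : L2d d) x * conj (φ' i x)
      = c * (∫ x, u' i x * conj (φ' i x)) := by
    intro i
    rw [← integral_const_mul]
    apply integral_congr_ae
    filter_upwards [Lp.coeFn_smul c (u' i)] with x hx
    rw [hx, Pi.smul_apply, smul_eq_mul]; ring
  have a2 : ∫ x, (c • g : L2d d) x * conj (φ x) = c * (∫ x, g x * conj (φ x)) := by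
    rw [← integral_const_mul]
    apply integral_congr_ae
    filter_upwards [Lp.coeFn_smul c g] with x hx
    rw [hx, Pi.smul_apply, smul_eq_mul]; ring
  simp only [a1, ← Finset.mul_sum]
  rw [a2, integral_congr_ae hVae, integral_const_mul, ← e1]
  ring

lemma HGraph.zero (ħ : ℝ) (V : EuclideanSpace ℝ (Fin d) → ℂ) : HGraph ħ V 0 0 := by
  refine ⟨fun _ => 0, fun i => IsWeakPartial.zero i, ?_⟩
  intro φ φ' _
  have e3 : (fun x => V x * (0 : L2d d) x * conj (φ x)) =ᵐ[volume] fun _ => (0 : ℂ) := by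
    filter_upwards [ae_zero (d := d)] with x hx
    rw [hx]; ring
  have e4 : ∀ ψ : L2d d, ∫ x, (0 : L2d d) x * conj (ψ x) = 0 := by
    intro ψ
    rw [← integral_zero (EuclideanSpace ℝ (Fin d)) ℂ (μ := volume)]
    apply integral_congr_ae
    filter_upwards [ae_zero (d := d)] with x hx
    rw [hx, zero_mul]
  refine ⟨(integrable_zero _ ℂ volume).congr e3.symm, ?_⟩
  simp only [e4]
  rw [integral_congr_ae e3]; simp

lemma genStep_add {ħ : ℝ} {V : EuclideanSpace ℝ (Fin d) → ℂ} {E : ℂ} {N : Submodule ℂ (L2d d)}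
    {u v : L2d d} (hu : ∃ g, HGraph ħ V u g ∧ g - E • u ∈ N)
    (hv : ∃ g, HGraph ħ V v g ∧ g - E • v ∈ N) :
    ∃ g, HGraph ħ V (u + v) g ∧ g - E • (u + v) ∈ N := by
  obtain ⟨g, hg, hg'⟩ := hu
  obtain ⟨k, hk, hk'⟩ := hv
  refine ⟨g + k, hg.add hk, ?_⟩
  have : g + k - E • (u + v) = (g - E • u) + (k - E • v) := by
    rw [smul_add]; abel
  rw [this]; exact Submodule.add_mem _ hg' hk'

lemma genStep_zero {ħ : ℝ} {V : EuclideanSpace ℝ (Fin d) → ℂ} {E : ℂ}
    {N : Submodule ℂ (L2d d)} :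
    ∃ g, HGraph ħ V 0 g ∧ g - E • (0 : L2d d) ∈ N := ⟨0, HGraph.zero ħ V, by simp⟩

lemma genStep_smul {ħ : ℝ} {V : EuclideanSpace ℝ (Fin d) → ℂ} {E : ℂ}
    {N : Submodule ℂ (L2d d)} (c : ℂ) {u : L2d d}
    (hu : ∃ g, HGraph ħ V u g ∧ g - E • u ∈ N) :
    ∃ g, HGraph ħ V (c • u) g ∧ g - E • (c • u) ∈ N := by
  obtain ⟨g, hg, hg'⟩ := hu
  refine ⟨c • g, hg.smul c, ?_⟩
  have : c • g - E • (c • u) = c • (g - E • u) := by
    rw [smul_sub, smul_comm c E u]
  rw [this]; exact Submodule.smul_mem _ c hg'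

/-- `genStep ħ V E N` is the preimage of `N` under `H - E`, where `H` is the operator with graph
`HGraph ħ V`: all `u` in the domain of `H` with `H u - E u` in `N`. -/
def genStep (ħ : ℝ) (V : EuclideanSpace ℝ (Fin d) → ℂ) (E : ℂ) (N : Submodule ℂ (L2d d)) :
    Submodule ℂ (L2d d) where
  carrier := {u | ∃ g, HGraph ħ V u g ∧ g - E • u ∈ N}
  add_mem' := genStep_add
  zero_mem' := genStep_zero
  smul_mem' := fun c _ => genStep_smul c

/-- `genSpace ħ V E k` is the kernel of `(H - E)^k`, where `H` is the operator with graph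
`HGraph ħ V`. -/
noncomputable def genSpace (ħ : ℝ) (V : EuclideanSpace ℝ (Fin d) → ℂ) (E : ℂ) :
    ℕ → Submodule ℂ (L2d d)
  | 0 => ⊥
  | k + 1 => genStep ħ V E (genSpace ħ V E k)

/-- The algebraic multiplicity of `E` as an eigenvalue of `H`: the dimension of the union of the
kernels of `(H - E)^k` (it is `0` when `E` is not an eigenvalue). -/
noncomputable def algMult (ħ : ℝ) (V : EuclideanSpace ℝ (Fin d) → ℂ) (E : ℂ) : ℕ∞ :=
  Cardinal.toENat (Module.rank ℂ (⨆ k, genSpace ħ V E k : Submodule ℂ (L2d d)))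

/-- The distance of `E` to the half line `[0, ∞)`. -/
noncomputable def distPos (E : ℂ) : ℝ := Metric.infDist E {z : ℂ | 0 ≤ z.re ∧ z.im = 0}

/-- The inequality `(*)` with the constant `C`: for all `ħ > 0` and all complex `V` in
`L^(γ + d/2)(ℝ^d)`, the sum over all `E` off `[0, ∞)` of
`(algebraic multiplicity) * |E|^(-σ) * dist(E, [0, ∞))^(γ + σ)` is at most
`C * ħ^(-d) * ∫ |V|^(γ + d/2)`. -/
def DHK (d : ℕ) (γ σ C : ℝ) : Prop :=
  ∀ ħ : ℝ, 0 < ħ → ∀ V : EuclideanSpace ℝ (Fin d) → ℂ,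
    MemLp V (ENNReal.ofReal (γ + d / 2)) volume →
    ∑' E : {E : ℂ // ¬ (0 ≤ E.re ∧ E.im = 0)},
      (algMult ħ V E : ℝ≥0∞) * ENNReal.ofReal (‖(E : ℂ)‖ ^ (-σ) * distPos E ^ (γ + σ))
      ≤ ENNReal.ofReal (C * ħ ^ (-(d : ℝ)) * ∫ x, ‖V x‖ ^ (γ + d / 2))

end Pool.Agent.Helper98.CLTd
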