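import Pool.Agent.Helper98.CLTd.ZProps
import Pool.Agent.Helper93.CLTd.PlaneEigen
import Pool.Agent.Helper70.CLTd.R4

/-! From a solution of the matching equation to an eigenfunction. -/

namespace Pool.Agent.Helper98.CLTd

open MeasureTheory Set Filter Topology
open scoped ComplexConjugate ENNReal

/-- The main channels. -/
def MainCh (j : ℤ) : Prop := j = 0 ∨ j = -1

instance : DecidablePred MainCh := fun j => by unfold MainCh; infer_instance

/-- The properties of the channel resolvents at a fixed `s`. -/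
structure ResAt (T : ℤ → E →L[ℂ] E) (s : ℂ) (c : ℝ) : Prop where
  norm_T : ∀ j, ‖T j‖ ≤ c
  main : ∀ j, MainCh j → ∀ F : E, ∃ h : E, InForm 1 (T j F) h ∧ ∀ η η' : E, InForm 1 η η' →
      (∫ r in Ioi (0 : ℝ), h r * η' r) + (∫ r in Ioi (0 : ℝ), s ^ 2 * T j F r * η r)
            = ∫ r in Ioi (0 : ℝ), F r * η r
  exo : ∀ j, ¬ MainCh j → ∀ F : E, ∃ h : E, InForm 0 (T j F) h ∧ ∀ η η' : E, InForm 0 η η' →
      (∫ r in Ioi (0 : ℝ), h r * η' r)
        + (∫ r in Ioi (0 : ℝ), ((Qch j r : ℂ) + s ^ 2) * T j F r * η r)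
            = ∫ r in Ioi (0 : ℝ), F r * η r

/-- The channel functions of the eigenfunction. -/
noncomputable def gch (u : ℝ → ℂ) (s : ℂ) (xc : ℤ → ℂ) (w : ℤ → E) (j : ℤ) (r : ℝ) : ℂ :=
  if MainCh j then
    (if r < 1 then xc j * u r else xc j * Complex.exp (-s * (r - 1)) + w j r)
  else w j r

lemma v0fun_of_lt {r : ℝ} (h : |r| < 1) : v0fun r = -24 / (7 - 3 * r ^ 2) := by
  rw [v0fun, if_pos h]

lemma v0fun_of_ge {r : ℝ} (h : 1 ≤ |r|) : v0fun r = -3 / (4 * r ^ 2) := by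
  rw [v0fun, if_neg (not_lt.2 h)]

lemma measurable_v0fun : Measurable v0fun := by
  unfold v0fun
  refine Measurable.ite (measurableSet_lt (by fun_prop) measurable_const) ?_ ?_ <;> fun_prop

lemma abs_v0fun_le (r : ℝ) : |v0fun r| ≤ 6 := by
  by_cases h : |r| < 1
  · rw [v0fun_of_lt h]
    have h1 : r ^ 2 < 1 := by rw [← sq_abs]; nlinarith [abs_nonneg r]
    have h2 : 4 ≤ 7 - 3 * r ^ 2 := by linarith
    rw [abs_div, abs_of_pos (by linarith : 0 < 7 - 3 * r ^ 2), abs_neg,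
      abs_of_pos (by norm_num : (0 : ℝ) < 24), div_le_iff₀ (by linarith)]
    linarith
  · push Not at h
    rw [v0fun_of_ge h]
    have h1 : 1 ≤ r ^ 2 := by rw [← sq_abs]; nlinarith
    rw [abs_div, abs_neg, abs_of_pos (by norm_num : (0 : ℝ) < 3), abs_of_pos (by linarith),
      div_le_iff₀ (by linarith)]
    linarith

lemma measurable_Qch (j : ℤ) : Measurable (Qch j) := by
  unfold Qch
  have := measurable_v0fun
  fun_prop

lemma v0fun_nonpos {r : ℝ} (hr : 0 < r) : v0fun r ≤ 0 := by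
  by_cases h : |r| < 1
  · rw [v0fun_of_lt h]
    have h1 : r ^ 2 < 1 := by rw [← sq_abs]; nlinarith [abs_nonneg r]
    exact div_nonpos_of_nonpos_of_nonneg (by norm_num) (by linarith)
  · push Not at h
    rw [v0fun_of_ge h]
    exact div_nonpos_of_nonpos_of_nonneg (by norm_num) (by positivity)

lemma Qch_nonneg {j : ℤ} (hj : ¬ MainCh j) {r : ℝ} (hr : 0 < r) : 0 ≤ Qch j r := by
  have hj2 : (9 : ℝ) ≤ (2 * (j : ℝ) + 1) ^ 2 := by
    have h1 : (9 : ℤ) ≤ (2 * j + 1) ^ 2 := by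
      have : j ≤ -2 ∨ 1 ≤ j := by
        unfold MainCh at hj; push Not at hj; omega
      rcases this with h | h <;> nlinarith
    exact_mod_cast h1
  have h2 : (9 - 1 / 4) / r ^ 2 ≤ ((2 * (j : ℝ) + 1) ^ 2 - 1 / 4) / r ^ 2 := by gcongr
  unfold Qch
  by_cases h : |r| < 1
  · have h3 := abs_v0fun_le r
    have h4 := (abs_le.1 h3).1
    rw [abs_of_pos hr] at h
    have h5 : 6 ≤ (9 - 1 / 4) / r ^ 2 := by
      rw [le_div_iff₀ (by positivity)]; nlinarith
    linarith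
  · push Not at h
    rw [v0fun_of_ge h]
    have h5 : 3 / (4 * r ^ 2) ≤ (9 - 1 / 4) / r ^ 2 := by
      rw [div_le_div_iff₀ (by positivity) (by positivity)]; nlinarith [sq_nonneg r]
    rw [neg_div]; linarith

lemma Qch_le (j : ℤ) {r : ℝ} (hr : 0 < r) : Qch j r ≤ (2 * (j : ℝ) + 1) ^ 2 / r ^ 2 := by
  unfold Qch
  have h1 := v0fun_nonpos hr
  have h2 : ((2 * (j : ℝ) + 1) ^ 2 - 1 / 4) / r ^ 2 ≤ (2 * (j : ℝ) + 1) ^ 2 / r ^ 2 := by
    gcongr; linarith
  linarith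

section

variable {R β : ℝ} {T : ℤ → ℂ → E →L[ℂ] E} {s : ℂ} {a : C(Icc (2 : ℝ) R, ℂ)} {x0 x1 : ℂ}

/-- The combined source. -/
noncomputable def Vc (R β : ℝ) (T : ℤ → ℂ → E →L[ℂ] E) (a : C(Icc (2 : ℝ) R, ℂ)) (s x0 x1 : ℂ)
    (i : ℤ) : E := x0 • Vf R β T a s 0 i + x1 • Vf R β T a s (-1) i

/-- The channel amplitudes. -/
noncomputable def xch (x0 x1 : ℂ) (i : ℤ) : ℂ := if i = 0 then x0 else if i = -1 then x1 else 0

/-- The weighted channel functions. -/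
noncomputable def uh (R β : ℝ) (T : ℤ → ℂ → E →L[ℂ] E) (a : C(Icc (2 : ℝ) R, ℂ)) (s x0 x1 : ℂ)
    (i : ℤ) : E := xch x0 x1 i • eS R s - Th R T i s (Vc R β T a s x0 x1 i)

lemma Vc_eq (hβ : 0 ≤ β) (hs : 0 ≤ s.re) {τ α : ℝ} (hT : ∀ i, ‖Th R T i s‖ ≤ τ)
    (hA : ‖Aop a‖ ≤ α) (hq : (α + 4 * β) * τ ≤ 1 / 4) (i : ℤ) :
    Vc R β T a s x0 x1 i = Aop a (uh R β T a s x0 x1 (i - 1)) + Bop β (uh R β T a s x0 x1 (i + 1)) := by
  have h0 := Vs_eq (A := Aop a) (B := Bop β) (T := fun i => Th R T i s) (e := eS R s) (j := 0)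
    hA (norm_Bop_le hβ) hT (norm_eS_le hs) (by linarith) i
  have h1 := Vs_eq (A := Aop a) (B := Bop β) (T := fun i => Th R T i s) (e := eS R s) (j := -1)
    hA (norm_Bop_le hβ) hT (norm_eS_le hs) (by linarith) i
  have e0 : Vf R β T a s 0 i = Vs (Aop a) (Bop β) (fun i => Th R T i s) (eS R s) 0 i := rfl
  have e1 : Vf R β T a s (-1) i = Vs (Aop a) (Bop β) (fun i => Th R T i s) (eS R s) (-1) i := rfl
  unfold uh
  rw [map_sub, map_sub, map_smul, map_smul]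
  have k1 : ∀ k, Vc R β T a s x0 x1 k = x0 • Vf R β T a s 0 k + x1 • Vf R β T a s (-1) k :=
    fun k => rfl
  rw [k1 (i - 1), k1 (i + 1), k1 i, e0, e1, h0, h1]
  have c1 : xch x0 x1 (i - 1) • Aop a (eS R s)
      = x0 • (if i = 0 + 1 then Aop a (eS R s) else 0)
        + x1 • (if i = -1 + 1 then Aop a (eS R s) else 0) := by
    unfold xch
    by_cases hi : i = 1
    · subst hi; simp
    · by_cases hi0 : i = 0
      · subst hi0; simp
      · rw [if_neg (by omega), if_neg (by omega), if_neg (by omega), if_neg (by omega)]; simp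
  have c2 : xch x0 x1 (i + 1) • Bop β (eS R s)
      = x0 • (if i = 0 - 1 then Bop β (eS R s) else 0)
        + x1 • (if i = -1 - 1 then Bop β (eS R s) else 0) := by
    unfold xch
    by_cases hi : i = -1
    · subst hi; simp
    · by_cases hi0 : i = -2
      · subst hi0; simp
      · rw [if_neg (by omega), if_neg (by omega), if_neg (by omega), if_neg (by omega)]; simp
  rw [c1, c2]
  simp only [Vf, map_add, map_smul, smul_add, smul_sub]
  abel

/-- The source functions. -/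
noncomputable def Fc (R β : ℝ) (T : ℤ → ℂ → E →L[ℂ] E) (a : C(Icc (2 : ℝ) R, ℂ)) (s x0 x1 : ℂ)
    (i : ℤ) : E := -(mulOp (wR R) (Vc R β T a s x0 x1 i))

/-- The decoupled resolvents applied to the sources. -/
noncomputable def wc (R β : ℝ) (T : ℤ → ℂ → E →L[ℂ] E) (a : C(Icc (2 : ℝ) R, ℂ)) (s x0 x1 : ℂ)
    (i : ℤ) : E := T i s (Fc R β T a s x0 x1 i)

lemma wR_mulOp_ae (R : ℝ) (f : E) : ∀ᵐ r ∂μ₀, mulOp (wR R) f r = wR R r * f r :=
  mulOp_ae (measurable_wR R) (norm_wR_le R) f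

lemma xch_of_not_main {i : ℤ} (h : ¬ MainCh i) : xch x0 x1 i = 0 := by
  unfold MainCh at h; push Not at h
  rw [xch, if_neg h.1, if_neg h.2]

lemma uh_ae (u : ℝ → ℂ) (i : ℤ) : ∀ᵐ r ∂μ₀, uh R β T a s x0 x1 i r
    = wR R r * gch u s (xch x0 x1) (wc R β T a s x0 x1) i r := by
  have h1 : Th R T i s (Vc R β T a s x0 x1 i) = -(mulOp (wR R) (wc R β T a s x0 x1 i)) := by
    unfold Th wc Fc
    simp only [ContinuousLinearMap.comp_apply, map_neg, neg_neg]
  have h2 : uh R β T a s x0 x1 i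
      = xch x0 x1 i • eS R s + mulOp (wR R) (wc R β T a s x0 x1 i) := by
    unfold uh; rw [h1, sub_neg_eq_add]
  rw [h2]
  filter_upwards [Lp.coeFn_add (xch x0 x1 i • eS R s) (mulOp (wR R) (wc R β T a s x0 x1 i)),
    Lp.coeFn_smul (xch x0 x1 i) (eS R s), eS_ae R s,
    wR_mulOp_ae R (wc R β T a s x0 x1 i)] with r k1 k2 k3 k4
  rw [k1, Pi.add_apply, k2, Pi.smul_apply, k3, k4, smul_eq_mul, eSf]
  by_cases hr : r ∈ Icc (1 : ℝ) R
  · unfold gch
    split_ifs with hm h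
    · exact absurd hr.1 (not_le.2 h)
    · ring
    · rw [xch_of_not_main hm]; ring
  · rw [wR_of_notMem hr]; ring

lemma Fc_ae (hR : 2 ≤ R) (hβ : 0 ≤ β) (hs : 0 ≤ s.re) {τ α : ℝ} (hT : ∀ i, ‖Th R T i s‖ ≤ τ)
    (hA : ‖Aop a‖ ≤ α) (hq : (α + 4 * β) * τ ≤ 1 / 4) (u : ℝ → ℂ) (i : ℤ) :
    ∀ᵐ r ∂μ₀, Fc R β T a s x0 x1 i r
      = -(extC a r * gch u s (xch x0 x1) (wc R β T a s x0 x1) (i - 1) r
        + (Ico (1 : ℝ) 2).indicator (fun _ => (β : ℂ)) r
          * gch u s (xch x0 x1) (wc R β T a s x0 x1) (i + 1) r) := by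
  have hV := Vc_eq (x0 := x0) (x1 := x1) hβ hs hT hA hq i
  unfold Fc
  filter_upwards [Lp.coeFn_neg (mulOp (wR R) (Vc R β T a s x0 x1 i)),
    wR_mulOp_ae R (Vc R β T a s x0 x1 i),
    Lp.coeFn_add (Aop a (uh R β T a s x0 x1 (i - 1))) (Bop β (uh R β T a s x0 x1 (i + 1))),
    Aop_ae a (uh R β T a s x0 x1 (i - 1)), Bop_ae hβ (uh R β T a s x0 x1 (i + 1)),
    uh_ae (R := R) (β := β) (T := T) (a := a) (s := s) (x0 := x0) (x1 := x1) u (i - 1),
    uh_ae (R := R) (β := β) (T := T) (a := a) (s := s) (x0 := x0) (x1 := x1) u (i + 1)]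
    with r k1 k2 k3 k4 k5 k6 k7
  rw [k1, Pi.neg_apply, k2, hV, k3, Pi.add_apply, k4, k5, k6, k7, symA, symB]
  by_cases hr : r ∈ Icc (1 : ℝ) R
  · rw [wR_of_mem hr]
    have h0 : (r : ℂ) ≠ 0 := by
      have : 0 < r := by linarith [hr.1]
      exact_mod_cast this.ne'
    push_cast
    field_simp
  · rw [wR_of_notMem hr]
    have h1 : r ∉ Icc (2 : ℝ) R := fun h => hr ⟨by linarith [h.1], h.2⟩
    have h2 : r ∉ Ico (1 : ℝ) 2 := fun h => hr ⟨h.1, by linarith [h.2]⟩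
    rw [extC_of_notMem a h1, indicator_of_notMem h2]; ring

lemma Fc_integral (i : ℤ) : ∫ r in Ioi (1 : ℝ), Fc R β T a s x0 x1 i r
      * Complex.exp (-s * (r - 1))
    = -(x0 * Wf R β T a s i 0 + x1 * Wf R β T a s i (-1)) := by
  have h1 : ∫ r in Ioi (1 : ℝ), Fc R β T a s x0 x1 i r * Complex.exp (-s * (r - 1))
      = ∫ r in Ioi (0 : ℝ), -(eS R s r * Vc R β T a s x0 x1 i r) := by
    have e1 : ∀ᵐ r ∂μ₀, -(eS R s r * Vc R β T a s x0 x1 i r)
        = (Ioi (1 : ℝ)).indicator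
          (fun r : ℝ => Fc R β T a s x0 x1 i r * Complex.exp (-s * (r - 1))) r := by
      unfold Fc
      filter_upwards [Lp.coeFn_neg (mulOp (wR R) (Vc R β T a s x0 x1 i)),
        wR_mulOp_ae R (Vc R β T a s x0 x1 i), eS_ae R s, ae_ne_one] with r k1 k2 k3 k4
      by_cases h : r ∈ Ioi (1 : ℝ)
      · rw [indicator_of_mem h, k1, Pi.neg_apply, k2, k3, eSf]; ring
      · rw [indicator_of_notMem h, k3, eSf]
        have : r ∉ Icc (1 : ℝ) R := fun h' => h (lt_of_le_of_ne h'.1 (Ne.symm k4))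
        rw [wR_of_notMem this]; ring
    rw [integral_congr_ae e1, integral_indicator measurableSet_Ioi,
      Measure.restrict_restrict measurableSet_Ioi]
    have : Ioi (1 : ℝ) ∩ Ioi 0 = Ioi 1 := by
      ext x; simp only [mem_inter_iff, mem_Ioi]
      constructor
      · exact fun h => h.1
      · intro h; exact ⟨h, by linarith⟩
    rw [this]
  rw [h1, integral_neg, ← pairL_apply]
  unfold Vc Wf
  rw [map_add, map_smul, map_smul, smul_eq_mul, smul_eq_mul]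

lemma Fc_zero (i : ℤ) : ∀ᵐ r ∂μ₀, r < 1 → Fc R β T a s x0 x1 i r = 0 := by
  unfold Fc
  filter_upwards [Lp.coeFn_neg (mulOp (wR R) (Vc R β T a s x0 x1 i)),
    wR_mulOp_ae R (Vc R β T a s x0 x1 i)] with r k1 k2 h
  rw [k1, Pi.neg_apply, k2, wR_of_notMem (fun h' => absurd h'.1 (not_le.2 h))]; ring

lemma memLp_exp (hs : 0 < s.re) :
    MemLp (fun r : ℝ => Complex.exp (-s * (r - 1))) 2 (μ₀.restrict (Iio 1)ᶜ) := by
  rw [memLp_two_iff_integrable_sq_norm (by fun_prop)]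
  have h1 : (fun r : ℝ => ‖Complex.exp (-s * (r - 1))‖ ^ 2)
      = fun r : ℝ => Real.exp (2 * s.re) * Real.exp (-(2 * s.re) * r) := by
    ext r
    rw [Complex.norm_exp, ← Real.exp_nat_mul, ← Real.exp_add]
    congr 1
    simp; ring
  rw [h1]
  refine Integrable.const_mul ?_ _
  have h2 : IntegrableOn (fun r : ℝ => Real.exp (-(2 * s.re) * r)) (Ioi 0) :=
    exp_neg_integrableOn_Ioi 0 (by positivity)
  exact Integrable.restrict h2

lemma memLp_u {u : ℝ → ℂ} {C : ℝ} (hc : ContinuousOn u (Ioc 0 1))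
    (hb : ∀ r, 0 < r → r ≤ 1 → ‖u r‖ ≤ C * r ^ (3 / 2 : ℝ)) :
    MemLp u 2 (μ₀.restrict (Iio 1)) := by
  rw [Measure.restrict_restrict measurableSet_Iio]
  have h0 : Iio (1 : ℝ) ∩ Ioi 0 = Ioo 0 1 := by
    ext x; simp only [mem_inter_iff, mem_Ioi, mem_Iio, mem_Ioo]; tauto
  rw [h0]
  have : IsFiniteMeasure ((volume : Measure ℝ).restrict (Ioo 0 1)) := by
    constructor
    rw [Measure.restrict_apply MeasurableSet.univ, univ_inter, Real.volume_Ioo]
    exact ENNReal.ofReal_lt_top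
  refine MemLp.of_bound ?_ |C| ?_
  · exact (hc.mono Ioo_subset_Ioc_self).aestronglyMeasurable measurableSet_Ioo
  · filter_upwards [ae_restrict_mem measurableSet_Ioo] with r hr
    have h1 := hb r hr.1 hr.2.le
    have h2 : r ^ (3 / 2 : ℝ) ≤ 1 := Real.rpow_le_one hr.1.le hr.2.le (by norm_num)
    have h3 : 0 ≤ r ^ (3 / 2 : ℝ) := Real.rpow_nonneg hr.1.le _
    calc ‖u r‖ ≤ C * r ^ (3 / 2 : ℝ) := h1
      _ ≤ |C| * r ^ (3 / 2 : ℝ) := by gcongr; exact le_abs_self C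
      _ ≤ |C| * 1 := by gcongr
      _ = |C| := mul_one _

lemma memLp_gch {u : ℝ → ℂ} {C : ℝ} (hs : 0 < s.re) (hc : ContinuousOn u (Ioc 0 1))
    (hb : ∀ r, 0 < r → r ≤ 1 → ‖u r‖ ≤ C * r ^ (3 / 2 : ℝ)) (xc : ℤ → ℂ) (w : ℤ → E) (j : ℤ) :
    MemLp (gch u s xc w j) 2 μ₀ := by
  by_cases hj : MainCh j
  · have h1 : gch u s xc w j = (Iio (1 : ℝ)).piecewise (fun r => xc j * u r)
        (fun r => xc j * Complex.exp (-s * (r - 1)) + w j r) := by
      ext r
      rw [gch, if_pos hj]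
      by_cases hr : r < 1
      · rw [if_pos hr, piecewise_eq_of_mem _ _ _ (mem_Iio.2 hr)]
      · rw [if_neg hr, piecewise_eq_of_notMem _ _ _ (by simpa using hr)]
    rw [h1]
    refine MemLp.piecewise measurableSet_Iio ((memLp_u hc hb).const_mul _) ?_
    exact ((memLp_exp hs).const_mul _).add ((Lp.memLp (w j)).restrict _)
  · have h1 : gch u s xc w j = fun r => w j r := by
      ext r; rw [gch, if_neg hj]
    rw [h1]; exact Lp.memLp (w j)

lemma norm_Vc_le (hβ : 0 ≤ β) (hs : 0 ≤ s.re) {τ α : ℝ} (hT : ∀ i, ‖Th R T i s‖ ≤ τ)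
    (hA : ‖Aop a‖ ≤ α) (hq : (α + 4 * β) * τ ≤ 1 / 4) (i : ℤ) :
    ‖Vc R β T a s x0 x1 i‖ ≤ (‖x0‖ + 2 * ‖x1‖) * (4 * (α + 4 * β)) * (2 : ℝ)⁻¹ ^ i.natAbs := by
  have hα : 0 ≤ α := (norm_nonneg _).trans hA
  have h0 := norm_Vs_le_exp (A := Aop a) (B := Bop β) (T := fun i => Th R T i s) (e := eS R s)
    (j := 0) hA (norm_Bop_le hβ) hT (norm_eS_le hs) hq i
  have h1 := norm_Vs_le_exp (A := Aop a) (B := Bop β) (T := fun i => Th R T i s) (e := eS R s)
    (j := -1) hA (norm_Bop_le hβ) hT (norm_eS_le hs) hq i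
  rw [sub_zero] at h0
  have h2 : (2 : ℝ)⁻¹ ^ (i - -1).natAbs ≤ 2 * (2 : ℝ)⁻¹ ^ i.natAbs := by
    have : i.natAbs ≤ (i - -1).natAbs + 1 := by omega
    calc (2 : ℝ)⁻¹ ^ (i - -1).natAbs = 2 * (2 : ℝ)⁻¹ ^ ((i - -1).natAbs + 1) := by
          rw [pow_succ]; ring
      _ ≤ 2 * (2 : ℝ)⁻¹ ^ i.natAbs := by
          have := pow_le_pow_of_le_one (by norm_num : (0 : ℝ) ≤ 2⁻¹) (by norm_num) this
          linarith
  unfold Vc Vf
  calc _ ≤ ‖x0 • Vs (Aop a) (Bop β) (fun i => Th R T i s) (eS R s) 0 i‖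
        + ‖x1 • Vs (Aop a) (Bop β) (fun i => Th R T i s) (eS R s) (-1) i‖ := norm_add_le _ _
    _ = ‖x0‖ * ‖Vs (Aop a) (Bop β) (fun i => Th R T i s) (eS R s) 0 i‖
        + ‖x1‖ * ‖Vs (Aop a) (Bop β) (fun i => Th R T i s) (eS R s) (-1) i‖ := by
        rw [norm_smul, norm_smul]
    _ ≤ ‖x0‖ * (4 * (α + 4 * β) * (2 : ℝ)⁻¹ ^ i.natAbs)
        + ‖x1‖ * (4 * (α + 4 * β) * (2 * (2 : ℝ)⁻¹ ^ i.natAbs)) := by
        gcongr
        exact h1.trans (by gcongr)
    _ = _ := by ring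

lemma summable_natAbs : Summable fun i : ℤ => ((2 : ℝ)⁻¹ ^ i.natAbs) ^ 2 := by
  have h : Summable fun n : ℕ => ((2 : ℝ)⁻¹ ^ n) ^ 2 := by
    have : (fun n : ℕ => ((2 : ℝ)⁻¹ ^ n) ^ 2) = fun n : ℕ => ((4 : ℝ)⁻¹) ^ n := by
      ext n; rw [← pow_mul, mul_comm, pow_mul]; norm_num
    rw [this]
    exact summable_geometric_of_lt_one (by norm_num) (by norm_num)
  refine Summable.of_nat_of_neg ?_ ?_
  · simpa using h
  · simpa using h

lemma finite_main : {j : ℤ | MainCh j}.Finite := by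
  have : {j : ℤ | MainCh j} = {0, -1} := by ext j; simp [MainCh]
  rw [this]; exact (Set.finite_singleton _).insert _

theorem eigen_of_matching (hR : 2 ≤ R) (hβ : 0 ≤ β) (hs : 0 < s.re) {τ α c : ℝ}
    (hres : ResAt (fun j => T j s) s c)
    (hT : ∀ i, ‖Th R T i s‖ ≤ τ) (hA : ‖Aop a‖ ≤ α) (hq : (α + 4 * β) * τ ≤ 1 / 4)
    {u u' : ℝ → ℂ} {f : ℂ} {C : ℝ} (hu1 : u 1 = 1) (hu1' : u' 1 = f - s)
    (hc : ContinuousOn u (Ioc 0 1)) (hc' : ContinuousOn u' (Ioc 0 1))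
    (hd : ∀ r, 0 < r → r < 1 → HasDerivAt u (u' r) r ∧
        HasDerivAt u' (((3 / (4 * r ^ 2) - 24 / (7 - 3 * r ^ 2) : ℝ) + s ^ 2) * u r) r)
    (hb : ∀ r, 0 < r → r ≤ 1 → ‖u r‖ ≤ C * r ^ (3 / 2 : ℝ) ∧ ‖u' r‖ ≤ C * r ^ (1 / 2 : ℝ))
    (hW : Wf R β T a s (-1) 0 ≠ 0)
    (hm : (f + Wf R β T a s 0 0) * (f + Wf R β T a s (-1) (-1)) / Wf R β T a s (-1) 0
      = Wf R β T a s 0 (-1)) :
    ∃ U : L2d 2, U ≠ 0 ∧ HGraph 1 (Vpl (fun r => (v0fun r : ℂ)) (extC a)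
      ((Ico (1 : ℝ) 2).indicator fun _ => (β : ℂ))) U ((-s ^ 2) • U) := by
  set x1 : ℂ := 1 with hx1
  set x0 : ℂ := -(f + Wf R β T a s (-1) (-1)) / Wf R β T a s (-1) 0 with hx0
  set xc : ℤ → ℂ := xch x0 x1 with hxc
  set w : ℤ → E := wc R β T a s x0 x1 with hw
  set g : ℤ → ℝ → ℂ := gch u s xc w with hg
  set F : ℤ → E := Fc R β T a s x0 x1 with hF
  have hFae := fun i => Fc_ae (x0 := x0) (x1 := x1) hR hβ hs.le hT hA hq u i
  -- matching
  have hmatch : ∀ i, MainCh i → xc i * f = ∫ r in Ioi (1 : ℝ), F i r * Complex.exp (-s * (r - 1)) := by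
    intro i hi
    rw [hF, Fc_integral]
    rcases hi with rfl | rfl
    · rw [hxc, xch, if_pos rfl, ← hm, hx1, hx0]
      field_simp
      ring
    · rw [hxc, xch, if_neg (by norm_num), if_pos rfl, hx1, hx0]
      field_simp
      ring
  have hc0 : 0 ≤ c := (norm_nonneg _).trans (hres.norm_T 0)
  refine Helper93.CLTd.plane_eigen (fun r => (v0fun r : ℂ)) (extC a)
    ((Ico (1 : ℝ) 2).indicator fun _ => (β : ℂ))
    (Complex.measurable_ofReal.comp measurable_v0fun) (measurable_extC a)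
    (Measurable.indicator measurable_const measurableSet_Ico) (6 + ‖a‖ + β) ?_ ?_ ?_ s g ?_ ?_ ?_ ?_
  · intro r
    rw [Complex.norm_real, Real.norm_eq_abs]
    have := abs_v0fun_le r
    have := norm_nonneg a
    linarith
  · intro r
    have := norm_extC_le a r
    linarith
  · intro r
    have h1 : ‖(Ico (1 : ℝ) 2).indicator (fun _ => (β : ℂ)) r‖ ≤ β := by
      by_cases h : r ∈ Ico (1 : ℝ) 2
      · rw [indicator_of_mem h, Complex.norm_real, Real.norm_of_nonneg hβ]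
      · rw [indicator_of_notMem h, norm_zero]; exact hβ
    have := norm_nonneg a
    linarith
  · intro j
    exact memLp_gch hs hc (fun r h1 h2 => (hb r h1 h2).1) xc w j
  · -- summability
    have h1 : Summable fun j : ℤ =>
        (c * ((‖x0‖ + 2 * ‖x1‖) * (4 * (α + 4 * β)))) ^ 2 * ((2 : ℝ)⁻¹ ^ j.natAbs) ^ 2 :=
      summable_natAbs.mul_left _
    refine Summable.of_norm_bounded_eventually h1 ?_
    have hfin : ∀ᶠ j : ℤ in cofinite, ¬ MainCh j := by
      have := finite_main.compl_mem_cofinite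
      filter_upwards [this] with j hj using hj
    filter_upwards [hfin] with j hj
    have e1 : (fun r => ‖g j r‖ ^ 2) = fun r => ‖w j r‖ ^ 2 := by
      ext r; rw [hg, gch, if_neg hj]
    rw [e1, ← norm_sq_E, Real.norm_of_nonneg (by positivity), ← mul_pow]
    have h2 : ‖w j‖ ≤ c * ((‖x0‖ + 2 * ‖x1‖) * (4 * (α + 4 * β))) * (2 : ℝ)⁻¹ ^ j.natAbs := by
      have h3 : ‖w j‖ ≤ c * ‖F j‖ := by
        rw [hw, wc]
        exact ((T j s).le_opNorm _).trans (mul_le_mul_of_nonneg_right (hres.norm_T j) (norm_nonneg _))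
      have h4 : ‖F j‖ ≤ ‖Vc R β T a s x0 x1 j‖ := by
        rw [hF, Fc, norm_neg]
        have := norm_mulOp_apply_le (measurable_wR R) (norm_wR_le R) (Vc R β T a s x0 x1 j)
        linarith
      have h5 := norm_Vc_le (x0 := x0) (x1 := x1) hβ hs.le hT hA hq j
      calc ‖w j‖ ≤ c * ‖F j‖ := h3
        _ ≤ c * ((‖x0‖ + 2 * ‖x1‖) * (4 * (α + 4 * β)) * (2 : ℝ)⁻¹ ^ j.natAbs) := by
            gcongr; exact h4.trans h5
        _ = _ := by ring
    gcongr
  · -- nonzero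
    refine ⟨-1, ?_⟩
    intro h0
    have hcont : ContinuousWithinAt u (Ioc 0 1) 1 := hc 1 (by norm_num)
    have h1 : ∀ᶠ r in 𝓝[Ioc 0 1] (1 : ℝ), u r ≠ 0 := by
      have : u 1 ≠ 0 := by rw [hu1]; exact one_ne_zero
      exact hcont.eventually_ne this
    rw [nhdsWithin_Ioc_eq_nhdsLE (by norm_num : (0 : ℝ) < 1)] at h1
    have h2 : ∀ᶠ r in 𝓝[<] (1 : ℝ), u r ≠ 0 := h1.filter_mono (nhdsWithin_mono _ Iio_subset_Iic_self)
    rw [Filter.eventually_iff, mem_nhdsLT_iff_exists_Ioo_subset' (by norm_num : (0 : ℝ) < 1)] at h2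
    obtain ⟨l, hl, hl2⟩ := h2
    have h3 : ∀ᵐ r ∂μ₀, r ∉ Ioo (max l 0) 1 := by
      filter_upwards [h0] with r hr hr2
      have h4 : u r ≠ 0 := hl2 ⟨lt_of_le_of_lt (le_max_left _ _) hr2.1, hr2.2⟩
      rw [hg, gch, if_pos (by right; rfl), if_pos hr2.2, hxc, xch, if_neg (by norm_num),
        if_pos rfl, hx1, one_mul] at hr
      exact h4 hr
    have h5 : μ₀ (Ioo (max l 0) 1) = 0 := by
      have h8 := (ae_iff.1 h3)
      have h9 : {a : ℝ | ¬ (a ∉ Ioo (max l 0) 1)} = Ioo (max l 0) 1 := by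
        ext a; simp only [mem_ofPred_eq, not_not]
      rw [h9] at h8; exact h8
    rw [Measure.restrict_apply measurableSet_Ioo] at h5
    have h6 : Ioo (max l 0) 1 ∩ Ioi 0 = Ioo (max l 0) 1 := by
      ext r; simp only [mem_inter_iff, mem_Ioo, mem_Ioi]
      constructor
      · exact fun h => h.1
      · intro h; exact ⟨h, lt_of_le_of_lt (le_max_right _ _) h.1⟩
    rw [h6, Real.volume_Ioo, ENNReal.ofReal_eq_zero] at h5
    have h7 : max l 0 < 1 := max_lt hl (by norm_num)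
    linarith
  · -- the equation
    intro j χ χ' χ'' hχ
    have hsec : ∫ r in Ioi (0 : ℝ), (extC a r * g (j - 1) r
        + (Ico (1 : ℝ) 2).indicator (fun _ => (β : ℂ)) r * g (j + 1) r) * χ r
        = -∫ r in Ioi (0 : ℝ), F j r * χ r := by
      rw [← integral_neg]
      apply integral_congr_ae
      filter_upwards [hFae j] with r hr
      rw [hF, hr]; ring
    rw [hsec]
    have hfst : ∫ r in Ioi (0 : ℝ), g j r *
          (-χ'' r + (((2 * (j : ℂ) + 1) ^ 2 - 1 / 4) / (r : ℂ) ^ 2 + (v0fun r : ℂ) + s ^ 2) * χ r)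
        = ∫ r in Ioi (0 : ℝ), F j r * χ r := by
      by_cases hj : MainCh j
      · obtain ⟨h, hform, hweak⟩ := hres.main j hj (F j)
        have := Helper70.CLTd.weak_main s hs (w j) h (F j) hform
          (Fc_zero j) hweak u u' f C hu1 hu1' hc hc' hd hb (xc j) (hmatch j hj) χ χ' χ'' hχ
        rw [← this]
        apply integral_congr_ae
        filter_upwards with r
        rw [hg, gch, if_pos hj]
        congr 2
        have hj2 : (2 * (j : ℂ) + 1) ^ 2 = 1 := by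
          rcases hj with rfl | rfl <;> norm_num
        rw [hj2]
        push_cast
        congr 2
        rw [show (1 - 1 / 4 : ℂ) = 3 / 4 by norm_num]
        rw [div_div]
      · obtain ⟨h, hform, hweak⟩ := hres.exo j hj (F j)
        have := Helper70.CLTd.weak_exotic (Qch j) (measurable_Qch j) (fun r hr => Qch_nonneg hj hr)
          ((2 * (j : ℝ) + 1) ^ 2) (fun r hr => Qch_le j hr) s (w j) h (F j) hform hweak χ χ' χ'' hχ
        rw [← this]
        apply integral_congr_ae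
        filter_upwards with r
        rw [hg, gch, if_neg hj]
        congr 3
        unfold Qch
        push_cast
        ring
    rw [hfst]; ring

end

end Pool.Agent.Helper98.CLTd
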