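import Pool.Agent.Helper98.CLTd.Pair

/-! The concrete operators `A`, `B` and their norms. -/

namespace Pool.Agent.Helper98.CLTd

open MeasureTheory Set Filter Topology
open scoped ComplexConjugate ENNReal

lemma ae_ne_one : ∀ᵐ r ∂μ₀, r ≠ 1 := by
  have h : ∀ᵐ r ∂(volume : Measure ℝ), r ≠ 1 := by
    rw [ae_iff]; simp
  exact ae_restrict_of_ae h

lemma norm_eS_le {R : ℝ} {s : ℂ} (hs : 0 ≤ s.re) : ‖eS R s‖ ≤ 1 := by
  have hi : IntegrableOn (fun r : ℝ => r ^ (-2 : ℝ)) (Ioi 1) :=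
    integrableOn_Ioi_rpow_of_lt (by norm_num) one_pos
  refine norm_le_of_ae (g := (Ioi (1 : ℝ)).indicator (fun r : ℝ => r ^ (-2 : ℝ))) zero_le_one ?_ ?_ ?_
  · filter_upwards [eS_ae R s, ae_ne_one] with r h1 h2
    rw [h1]
    have h3 := norm_eSf_le' hs (R := R) r
    have h4 : ‖eSf R s r‖ ^ 2 ≤ ‖wR R r‖ ^ 2 := by gcongr
    refine h4.trans ?_
    rw [norm_wR]
    by_cases h : r ∈ Icc (1 : ℝ) R
    · have h5 : r ∈ Ioi (1 : ℝ) := lt_of_le_of_ne h.1 (Ne.symm h2)
      rw [indicator_of_mem h, indicator_of_mem h5]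
      have : 0 < r := by linarith [h.1]
      rw [show (-2 : ℝ) = -(2 : ℕ) by norm_num, Real.rpow_neg this.le, Real.rpow_natCast]
      simp
    · rw [indicator_of_notMem h]
      apply le_of_eq_of_le (zero_pow two_ne_zero)
      apply indicator_nonneg
      intro x hx
      exact Real.rpow_nonneg (by linarith [mem_Ioi.1 hx]) _
  · rw [integrable_indicator_iff measurableSet_Ioi]
    refine IntegrableOn.mono_measure hi Measure.restrict_le_self
  · rw [integral_indicator measurableSet_Ioi, Measure.restrict_restrict measurableSet_Ioi]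
    have : Ioi (1 : ℝ) ∩ Ioi 0 = Ioi 1 := by
      ext x; simp only [mem_inter_iff, mem_Ioi]
      constructor
      · exact fun h => h.1
      · intro h; exact ⟨h, by linarith⟩
    rw [this, integral_Ioi_rpow_of_lt (by norm_num) one_pos]
    norm_num

/-- symbol of `A`. -/
noncomputable def symA {R : ℝ} (a : C(Icc (2 : ℝ) R, ℂ)) (r : ℝ) : ℂ := (r : ℂ) ^ 2 * extC a r

/-- symbol of `B`. -/
noncomputable def symB (β : ℝ) (r : ℝ) : ℂ := (r : ℂ) ^ 2 * (Ico (1 : ℝ) 2).indicator (fun _ => (β : ℂ)) r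

lemma extC_of_mem {R : ℝ} (a : C(Icc (2 : ℝ) R, ℂ)) {r : ℝ} (h : r ∈ Icc (2 : ℝ) R) :
    extC a r = a ⟨r, h⟩ := by rw [extC, dif_pos h]

lemma extC_of_notMem {R : ℝ} (a : C(Icc (2 : ℝ) R, ℂ)) {r : ℝ} (h : r ∉ Icc (2 : ℝ) R) :
    extC a r = 0 := by rw [extC, dif_neg h]

lemma norm_extC_le {R : ℝ} (a : C(Icc (2 : ℝ) R, ℂ)) (r : ℝ) : ‖extC a r‖ ≤ ‖a‖ := by
  by_cases h : r ∈ Icc (2 : ℝ) R
  · rw [extC_of_mem a h]; exact ContinuousMap.norm_coe_le_norm a _
  · rw [extC_of_notMem a h, norm_zero]; exact norm_nonneg _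

lemma measurable_extC {R : ℝ} (a : C(Icc (2 : ℝ) R, ℂ)) : Measurable (extC a) := by
  unfold extC
  refine Measurable.dite (f := fun r : (Icc (2 : ℝ) R) => a r)
    (g := fun _ => (0 : ℂ)) a.continuous.measurable measurable_const measurableSet_Icc

lemma extC_add {R : ℝ} (a b : C(Icc (2 : ℝ) R, ℂ)) (r : ℝ) : extC (a + b) r = extC a r + extC b r := by
  by_cases h : r ∈ Icc (2 : ℝ) R
  · rw [extC_of_mem _ h, extC_of_mem _ h, extC_of_mem _ h]; rfl
  · rw [extC_of_notMem _ h, extC_of_notMem _ h, extC_of_notMem _ h, add_zero]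

lemma extC_smul {R : ℝ} (c : ℂ) (a : C(Icc (2 : ℝ) R, ℂ)) (r : ℝ) : extC (c • a) r = c * extC a r := by
  by_cases h : r ∈ Icc (2 : ℝ) R
  · rw [extC_of_mem _ h, extC_of_mem _ h]; rfl
  · rw [extC_of_notMem _ h, extC_of_notMem _ h, mul_zero]

lemma measurable_symA {R : ℝ} (a : C(Icc (2 : ℝ) R, ℂ)) : Measurable (symA a) := by
  unfold symA
  exact (by fun_prop : Measurable fun r : ℝ => (r : ℂ) ^ 2).mul (measurable_extC a)

lemma measurable_symB (β : ℝ) : Measurable (symB β) := by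
  unfold symB
  exact (by fun_prop : Measurable fun r : ℝ => (r : ℂ) ^ 2).mul
    (Measurable.indicator measurable_const measurableSet_Ico)

lemma norm_symA_le {R : ℝ} (a : C(Icc (2 : ℝ) R, ℂ)) (r : ℝ) : ‖symA a r‖ ≤ ‖a‖ * R ^ 2 := by
  unfold symA
  by_cases h : r ∈ Icc (2 : ℝ) R
  · rw [norm_mul, norm_pow, Complex.norm_real, Real.norm_eq_abs,
      abs_of_nonneg (by linarith [h.1]), mul_comm]
    have := norm_extC_le a r
    have h0 : 0 ≤ r := by linarith [h.1]
    gcongr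
    exact h.2
  · rw [extC_of_notMem a h, mul_zero, norm_zero]; positivity

lemma norm_symB_le {β : ℝ} (hβ : 0 ≤ β) (r : ℝ) : ‖symB β r‖ ≤ 4 * β := by
  unfold symB
  by_cases h : r ∈ Ico (1 : ℝ) 2
  · rw [indicator_of_mem h, norm_mul, norm_pow, Complex.norm_real, Real.norm_eq_abs,
      abs_of_nonneg (by linarith [h.1]), Complex.norm_real, Real.norm_eq_abs, abs_of_nonneg hβ]
    have : r ^ 2 ≤ 4 := by nlinarith [h.1, h.2]
    gcongr
  · rw [indicator_of_notMem h, mul_zero, norm_zero]; positivity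

/-- the operator `A`. -/
noncomputable def Aop {R : ℝ} (a : C(Icc (2 : ℝ) R, ℂ)) : E →L[ℂ] E := mulOp (symA a)

/-- the operator `B`. -/
noncomputable def Bop (β : ℝ) : E →L[ℂ] E := mulOp (symB β)

lemma norm_Aop_le {R : ℝ} (a : C(Icc (2 : ℝ) R, ℂ)) : ‖Aop a‖ ≤ ‖a‖ * R ^ 2 :=
  norm_mulOp_le (measurable_symA a) (by positivity) (norm_symA_le a)

lemma norm_Bop_le {β : ℝ} (hβ : 0 ≤ β) : ‖Bop β‖ ≤ 4 * β :=
  norm_mulOp_le (measurable_symB β) (by positivity) (norm_symB_le hβ)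

lemma Aop_ae {R : ℝ} (a : C(Icc (2 : ℝ) R, ℂ)) (f : E) : ∀ᵐ r ∂μ₀, Aop a f r = symA a r * f r :=
  mulOp_ae (measurable_symA a) (norm_symA_le a) f

lemma Bop_ae {β : ℝ} (hβ : 0 ≤ β) (f : E) : ∀ᵐ r ∂μ₀, Bop β f r = symB β r * f r :=
  mulOp_ae (measurable_symB β) (norm_symB_le hβ) f

lemma Aop_add {R : ℝ} (a b : C(Icc (2 : ℝ) R, ℂ)) : Aop (a + b) = Aop a + Aop b := by
  ext1 f
  apply Lp.ext
  rw [add_apply]
  filter_upwards [Aop_ae (a + b) f, Aop_ae a f, Aop_ae b f, Lp.coeFn_add (Aop a f) (Aop b f)]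
    with r h1 h2 h3 h4
  rw [h4, Pi.add_apply, h1, h2, h3, symA, symA, symA, extC_add]; ring

lemma Aop_smul {R : ℝ} (c : ℂ) (a : C(Icc (2 : ℝ) R, ℂ)) : Aop (c • a) = c • Aop a := by
  ext1 f
  apply Lp.ext
  rw [smul_apply]
  filter_upwards [Aop_ae (c • a) f, Aop_ae a f, Lp.coeFn_smul c (Aop a f)]
    with r h1 h2 h4
  rw [h4, Pi.smul_apply, h1, h2, symA, symA, extC_smul, smul_eq_mul]; ring

lemma norm_Aop_eS_le {R : ℝ} (hR : 2 ≤ R) (a : C(Icc (2 : ℝ) R, ℂ)) {s : ℂ} (hs : 0 ≤ s.re) :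
    ‖Aop a (eS R s)‖ ≤ ‖a‖ * R ^ (3 / 2 : ℝ) := by
  have hR0 : 0 ≤ R := by linarith
  refine norm_le_of_ae (g := (Icc (2 : ℝ) R).indicator (fun _ : ℝ => ‖a‖ ^ 2 * R ^ 2))
    (by positivity) ?_ ?_ ?_
  · filter_upwards [Aop_ae a (eS R s), eS_ae R s] with r h1 h2
    rw [h1, h2]
    by_cases h : r ∈ Icc (2 : ℝ) R
    · have h0 : 0 < r := by linarith [h.1]
      rw [indicator_of_mem h, norm_mul, symA, norm_mul, norm_pow, Complex.norm_real,
        Real.norm_eq_abs, abs_of_pos h0, ← mul_pow]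
      have h3 := norm_eSf_le' hs (R := R) r
      have h5 : r ∈ Icc (1 : ℝ) R := ⟨by linarith [h.1], h.2⟩
      rw [norm_wR, indicator_of_mem h5] at h3
      have h4 := norm_extC_le a r
      refine pow_le_pow_left₀ (by positivity) ?_ 2
      calc r ^ 2 * ‖extC a r‖ * ‖eSf R s r‖ ≤ r ^ 2 * ‖a‖ * (1 / r) := by gcongr
        _ = ‖a‖ * r := by field_simp
        _ ≤ ‖a‖ * R := by gcongr; exact h.2
    · rw [indicator_of_notMem h, symA, extC_of_notMem a h]; simp
  · rw [integrable_indicator_iff measurableSet_Icc]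
    refine IntegrableOn.mono_measure (ν := volume) ?_ Measure.restrict_le_self
    exact integrableOn_const (by rw [Real.volume_Icc]; exact ENNReal.ofReal_ne_top)
  · rw [integral_indicator measurableSet_Icc, Measure.restrict_restrict measurableSet_Icc]
    have h1 : Icc (2 : ℝ) R ∩ Ioi 0 = Icc 2 R := by
      ext x; simp only [mem_inter_iff, mem_Ioi, mem_Icc]
      constructor
      · exact fun h => h.1
      · intro h; exact ⟨h, by linarith [h.1]⟩
    rw [h1, setIntegral_const, smul_eq_mul, Measure.real, Real.volume_Icc,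
      ENNReal.toReal_ofReal (by linarith), mul_pow, ← Real.rpow_natCast (R ^ (3 / 2 : ℝ)) 2,
      ← Real.rpow_mul hR0]
    norm_num
    have h2 : (R - 2) * (‖a‖ ^ 2 * R ^ 2) ≤ R * (‖a‖ ^ 2 * R ^ 2) := by gcongr; linarith
    calc _ ≤ _ := h2
      _ = _ := by ring

lemma norm_Bop_eS_le {R : ℝ} (hR : 2 ≤ R) {β : ℝ} (hβ : 0 ≤ β) {s : ℂ} (hs : 0 ≤ s.re) :
    ‖Bop β (eS R s)‖ ≤ 2 * β := by
  refine norm_le_of_ae (g := (Icc (1 : ℝ) 2).indicator (fun _ : ℝ => (2 * β) ^ 2))
    (by positivity) ?_ ?_ ?_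
  · filter_upwards [Bop_ae hβ (eS R s), eS_ae R s] with r h1 h2
    rw [h1, h2]
    by_cases h : r ∈ Ico (1 : ℝ) 2
    · have h0 : 0 < r := by linarith [h.1]
      have h6 : r ∈ Icc (1 : ℝ) 2 := ⟨h.1, h.2.le⟩
      rw [indicator_of_mem h6, norm_mul, symB,
        indicator_of_mem h, norm_mul, norm_pow, Complex.norm_real,
        Real.norm_eq_abs, abs_of_pos h0, Complex.norm_real, Real.norm_eq_abs, abs_of_nonneg hβ]
      have h3 := norm_eSf_le' hs (R := R) r
      have h5 : r ∈ Icc (1 : ℝ) R := ⟨h.1, by linarith [h.2]⟩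
      rw [norm_wR, indicator_of_mem h5] at h3
      refine pow_le_pow_left₀ (by positivity) ?_ 2
      calc r ^ 2 * β * ‖eSf R s r‖ ≤ r ^ 2 * β * (1 / r) := by gcongr
        _ = r * β := by field_simp
        _ ≤ 2 * β := by gcongr; exact h.2.le
    · rw [symB, indicator_of_notMem h]
      simp only [mul_zero, zero_mul, norm_zero]
      apply le_of_eq_of_le (zero_pow two_ne_zero)
      apply indicator_nonneg
      intro x hx; positivity
  · rw [integrable_indicator_iff measurableSet_Icc]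
    refine IntegrableOn.mono_measure (ν := volume) ?_ Measure.restrict_le_self
    exact integrableOn_const (by rw [Real.volume_Icc]; exact ENNReal.ofReal_ne_top)
  · rw [integral_indicator measurableSet_Icc, Measure.restrict_restrict measurableSet_Icc]
    have h1 : Icc (1 : ℝ) 2 ∩ Ioi 0 = Icc 1 2 := by
      ext x; simp only [mem_inter_iff, mem_Ioi, mem_Icc]
      constructor
      · exact fun h => h.1
      · intro h; exact ⟨h, by linarith [h.1]⟩
    rw [h1, setIntegral_const, smul_eq_mul, Measure.real, Real.volume_Icc]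
    norm_num

/-- the derivative of `s ↦ eS R s`. -/
lemma hasDerivAt_eS (R : ℝ) (s : ℂ) : DifferentiableAt ℂ (eS R) s := by
  have hm : Measurable (fun r : ℝ => (Icc (1 : ℝ) R).indicator (fun r => -((r : ℂ) - 1)) r) :=
    Measurable.indicator (by fun_prop) measurableSet_Icc
  have hC : ∀ r : ℝ, ‖(Icc (1 : ℝ) R).indicator (fun r : ℝ => -((r : ℂ) - 1)) r‖ ≤ |R| := by
    intro r
    by_cases h : r ∈ Icc (1 : ℝ) R
    · rw [indicator_of_mem h, norm_neg]
      have : ((r : ℂ) - 1) = ((r - 1 : ℝ) : ℂ) := by push_cast; ring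
      rw [this, Complex.norm_real, Real.norm_eq_abs, abs_of_nonneg (by linarith [h.1])]
      exact le_trans (by linarith [h.2]) (le_abs_self R)
    · rw [indicator_of_notMem h, norm_zero]; positivity
  set D : E := mulOp (fun r : ℝ => (Icc (1 : ℝ) R).indicator (fun r : ℝ => -((r : ℂ) - 1)) r)
    (eS R s) with hD
  have key : ∀ h : ℂ, ‖h‖ ≤ 1 → ‖eS R (s + h) - eS R s - h • D‖
      ≤ (R ^ 2 * Real.exp |R| * ‖eS R s‖) * ‖h‖ ^ 2 := by
    intro h hh
    have : ‖eS R (s + h) - eS R s - h • D‖ ≤ (R ^ 2 * Real.exp |R| * ‖h‖ ^ 2) * ‖eS R s‖ := by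
      apply Lp.norm_le_mul_norm_of_ae_le_mul
      filter_upwards [eS_ae R s, eS_ae R (s + h), mulOp_ae hm hC (eS R s),
        Lp.coeFn_sub (eS R (s + h) - eS R s) (h • D), Lp.coeFn_sub (eS R (s + h)) (eS R s),
        Lp.coeFn_smul h D] with r h1 h2 h3 h4 h5 h6
      rw [h4, Pi.sub_apply, h5, Pi.sub_apply, h6, Pi.smul_apply, smul_eq_mul, hD, h3, h2, h1]
      by_cases hr : r ∈ Icc (1 : ℝ) R
      · rw [indicator_of_mem hr]
        have e1 : eSf R (s + h) r - eSf R s r - h * (-((r : ℂ) - 1) * eSf R s r)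
            = eSf R s r * (Complex.exp (-h * (r - 1)) - 1 - (-h * (r - 1))) := by
          unfold eSf
          have : Complex.exp (-(s + h) * ((r : ℂ) - 1))
              = Complex.exp (-s * (r - 1)) * Complex.exp (-h * (r - 1)) := by
            rw [← Complex.exp_add]; congr 1; ring
          rw [this]; ring
        rw [e1, norm_mul, mul_comm]
        gcongr
        have h7 := Complex.norm_exp_sub_sum_le_norm_mul_exp (-h * ((r : ℂ) - 1)) 2
        rw [Finset.sum_range_succ, Finset.sum_range_one] at h7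
        simp only [pow_zero, Nat.factorial_zero, Nat.cast_one, div_one, pow_one,
          Nat.factorial_one] at h7
        have h8 : ‖-h * ((r : ℂ) - 1)‖ ≤ ‖h‖ * |R| := by
          rw [norm_mul, norm_neg]
          have : ((r : ℂ) - 1) = ((r - 1 : ℝ) : ℂ) := by push_cast; ring
          rw [this, Complex.norm_real, Real.norm_eq_abs, abs_of_nonneg (by linarith [hr.1])]
          gcongr
          exact le_trans (by linarith [hr.2]) (le_abs_self R)
        calc ‖Complex.exp (-h * (r - 1)) - 1 - (-h * (r - 1))‖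
            = ‖Complex.exp (-h * (r - 1)) - (1 + -h * (r - 1))‖ := by congr 1; ring
          _ ≤ ‖-h * ((r : ℂ) - 1)‖ ^ 2 * Real.exp ‖-h * ((r : ℂ) - 1)‖ := h7
          _ ≤ (‖h‖ * |R|) ^ 2 * Real.exp (1 * |R|) := by
            gcongr
            exact h8.trans (by gcongr)
          _ = R ^ 2 * Real.exp |R| * ‖h‖ ^ 2 := by
            rw [mul_pow, sq_abs, one_mul]; ring
      · rw [indicator_of_notMem hr]
        unfold eSf
        rw [wR_of_notMem hr]; simp
    calc _ ≤ _ := this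
      _ = _ := by ring
  have : HasDerivAt (eS R) D s := by
    rw [hasDerivAt_iff_isLittleO_nhds_zero]
    have hO : (fun h : ℂ => eS R (s + h) - eS R s - h • D) =O[𝓝 0] fun h : ℂ => ‖h‖ ^ 2 := by
      refine Asymptotics.IsBigO.of_bound (R ^ 2 * Real.exp |R| * ‖eS R s‖) ?_
      filter_upwards [Metric.closedBall_mem_nhds (0 : ℂ) one_pos] with h hh
      rw [Real.norm_of_nonneg (by positivity : (0 : ℝ) ≤ ‖h‖ ^ 2)]
      exact key h (by simpa using hh)
    refine hO.trans_isLittleO ?_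
    have := Asymptotics.isLittleO_norm_pow_id (E' := ℂ) one_lt_two
    exact this
  exact this.differentiableAt

end Pool.Agent.Helper98.CLTd
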