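import Mathlib

/-! Abstract multi-channel Born series. Channels are indexed by `ℤ`, `A` raises and `B` lowers the
channel index by one, `T i` acts in channel `i`. -/

namespace Pool.Agent.Helper98.CLTd

open Finset

variable {X : Type*} [NormedAddCommGroup X] [NormedSpace ℂ X]

/-- The `n`-th term of the Born series in channel `i`, starting from `e` in channel `j`. -/
noncomputable def vs (A B : X →L[ℂ] X) (T : ℤ → X →L[ℂ] X) (e : X) (j : ℤ) : ℕ → ℤ → X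
  | 0, i => (if i = j + 1 then A e else 0) + (if i = j - 1 then B e else 0)
  | n + 1, i => -(A (T (i - 1) (vs A B T e j n (i - 1))) + B (T (i + 1) (vs A B T e j n (i + 1))))

/-- The sum of the Born series in channel `i`. -/
noncomputable def Vs (A B : X →L[ℂ] X) (T : ℤ → X →L[ℂ] X) (e : X) (j i : ℤ) : X :=
  ∑' n, vs A B T e j n i

section bounds

variable {A B : X →L[ℂ] X} {T : ℤ → X →L[ℂ] X} {e : X} {j : ℤ} {α b τ : ℝ}

lemma vs_zero (i : ℤ) : vs A B T e j 0 i = (if i = j + 1 then A e else 0) +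
    (if i = j - 1 then B e else 0) := rfl

lemma vs_succ (n : ℕ) (i : ℤ) : vs A B T e j (n + 1) i =
    -(A (T (i - 1) (vs A B T e j n (i - 1))) + B (T (i + 1) (vs A B T e j n (i + 1)))) := rfl

/-- The weighted bound. -/
lemma norm_vs_le (hA : ‖A‖ ≤ α) (hB : ‖B‖ ≤ b) (hT : ∀ i, ‖T i‖ ≤ τ) (he : ‖e‖ ≤ 1)
    {t : ℝ} (ht : 0 < t) (n : ℕ) (i : ℤ) :
    ‖vs A B T e j n i‖ ≤ t ^ (j - i) * ((α * t + b * t⁻¹) * ((α * t + b * t⁻¹) * τ) ^ n) := by
  have hα : 0 ≤ α := (norm_nonneg _).trans hA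
  have hb : 0 ≤ b := (norm_nonneg _).trans hB
  have hτ : 0 ≤ τ := (norm_nonneg _).trans (hT 0)
  have hAx : ∀ x : X, ‖A x‖ ≤ α * ‖x‖ := fun x =>
    (A.le_opNorm x).trans (mul_le_mul_of_nonneg_right hA (norm_nonneg _))
  have hBx : ∀ x : X, ‖B x‖ ≤ b * ‖x‖ := fun x =>
    (B.le_opNorm x).trans (mul_le_mul_of_nonneg_right hB (norm_nonneg _))
  have hTx : ∀ i, ∀ x : X, ‖T i x‖ ≤ τ * ‖x‖ := fun i x =>
    ((T i).le_opNorm x).trans (mul_le_mul_of_nonneg_right (hT i) (norm_nonneg _))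
  induction n generalizing i with
  | zero =>
    rw [vs_zero, pow_zero, mul_one]
    by_cases h1 : i = j + 1
    · have h2 : ¬ (i = j - 1) := by omega
      rw [if_pos h1, if_neg h2, add_zero]
      have h3 : j - i = -1 := by omega
      rw [h3, zpow_neg_one]
      calc ‖A e‖ ≤ α * ‖e‖ := hAx e
        _ ≤ α * 1 := by gcongr
        _ = t⁻¹ * (α * t) := by field_simp
        _ ≤ t⁻¹ * (α * t + b * t⁻¹) := by
          have : 0 ≤ b * t⁻¹ := by positivity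
          gcongr; linarith
    · by_cases h2 : i = j - 1
      · rw [if_neg h1, if_pos h2, zero_add]
        have h3 : j - i = 1 := by omega
        rw [h3, zpow_one]
        calc ‖B e‖ ≤ b * ‖e‖ := hBx e
          _ ≤ b * 1 := by gcongr
          _ = t * (b * t⁻¹) := by field_simp
          _ ≤ t * (α * t + b * t⁻¹) := by
            have : 0 ≤ α * t := by positivity
            gcongr; linarith
      · rw [if_neg h1, if_neg h2, add_zero, norm_zero]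
        positivity
  | succ n ih =>
    rw [vs_succ, norm_neg]
    set ρ := α * t + b * t⁻¹ with hρ
    have hρ0 : 0 ≤ ρ := by positivity
    have e1 : t ^ (j - (i - 1)) = t ^ (j - i) * t := by
      rw [show j - (i - 1) = (j - i) + 1 by ring, zpow_add₀ ht.ne', zpow_one]
    have e2 : t ^ (j - (i + 1)) = t ^ (j - i) * t⁻¹ := by
      rw [show j - (i + 1) = (j - i) + (-1) by ring, zpow_add₀ ht.ne', zpow_neg_one]
    calc ‖A (T (i - 1) (vs A B T e j n (i - 1))) + B (T (i + 1) (vs A B T e j n (i + 1)))‖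
        ≤ ‖A (T (i - 1) (vs A B T e j n (i - 1)))‖ + ‖B (T (i + 1) (vs A B T e j n (i + 1)))‖ :=
          norm_add_le _ _
      _ ≤ α * (τ * ‖vs A B T e j n (i - 1)‖) + b * (τ * ‖vs A B T e j n (i + 1)‖) := by
          gcongr
          · exact (hAx _).trans (mul_le_mul_of_nonneg_left (hTx _ _) hα)
          · exact (hBx _).trans (mul_le_mul_of_nonneg_left (hTx _ _) hb)
      _ ≤ α * (τ * (t ^ (j - (i - 1)) * (ρ * (ρ * τ) ^ n)))
          + b * (τ * (t ^ (j - (i + 1)) * (ρ * (ρ * τ) ^ n))) := by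
          gcongr
          · exact ih _
          · exact ih _
      _ = t ^ (j - i) * (ρ * (ρ * τ) ^ (n + 1)) := by
          rw [e1, e2, pow_succ]
          have : α * (τ * (t ^ (j - i) * t * (ρ * (ρ * τ) ^ n)))
            + b * (τ * (t ^ (j - i) * t⁻¹ * (ρ * (ρ * τ) ^ n)))
            = t ^ (j - i) * (ρ * ((ρ * τ) ^ n * τ)) * (α * t + b * t⁻¹) := by ring
          rw [this, ← hρ]; ring

/-- Parity selection rule. -/
lemma vs_parity (n : ℕ) (i : ℤ) (h : ¬ Even (i - j - (n + 1))) : vs A B T e j n i = 0 := by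
  induction n generalizing i with
  | zero =>
    rw [vs_zero]
    have h1 : ¬ (i = j + 1) := by
      rintro rfl; apply h; simp
    have h2 : ¬ (i = j - 1) := by
      rintro rfl; apply h; norm_num
    rw [if_neg h1, if_neg h2, add_zero]
  | succ n ih =>
    rw [vs_succ]
    have h1 : ¬ Even (i - 1 - j - ((n : ℤ) + 1)) := by
      intro h1; apply h; push_cast
      rcases h1 with ⟨k, hk⟩
      exact ⟨k, by linarith⟩
    have h2 : ¬ Even (i + 1 - j - ((n : ℤ) + 1)) := by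
      intro h1; apply h; push_cast
      rcases h1 with ⟨k, hk⟩
      exact ⟨k - 1, by linarith⟩
    rw [ih _ h1, ih _ h2]; simp

lemma vs_even_ne {n : ℕ} {i : ℤ} {k : ℤ} (h : i - j - (n + 1) = 2 * k + 1) :
    vs A B T e j n i = 0 := by
  apply vs_parity
  rw [h]; exact Int.not_even_iff_odd.2 ⟨k, rfl⟩

variable [CompleteSpace X]

lemma summable_vs (hA : ‖A‖ ≤ α) (hB : ‖B‖ ≤ b) (hT : ∀ i, ‖T i‖ ≤ τ) (he : ‖e‖ ≤ 1)
    {t : ℝ} (ht : 0 < t) (hρ : (α * t + b * t⁻¹) * τ ≤ 1 / 2) (i : ℤ) :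
    Summable fun n => vs A B T e j n i := by
  have hα : 0 ≤ α := (norm_nonneg _).trans hA
  have hb : 0 ≤ b := (norm_nonneg _).trans hB
  have hτ : 0 ≤ τ := (norm_nonneg _).trans (hT 0)
  refine Summable.of_norm_bounded (g := fun n => t ^ (j - i) * ((α * t + b * t⁻¹) *
    ((α * t + b * t⁻¹) * τ) ^ n)) ?_ (fun n => norm_vs_le hA hB hT he ht n i)
  refine Summable.mul_left _ (Summable.mul_left _ ?_)
  exact summable_geometric_of_lt_one (by positivity) (by linarith)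

/-- Tail bound of the Born series. -/
lemma norm_Vs_sub_le (hA : ‖A‖ ≤ α) (hB : ‖B‖ ≤ b) (hT : ∀ i, ‖T i‖ ≤ τ) (he : ‖e‖ ≤ 1)
    {t : ℝ} (ht : 0 < t) (hρ : (α * t + b * t⁻¹) * τ ≤ 1 / 2) (i : ℤ) (m : ℕ) :
    ‖Vs A B T e j i - ∑ n ∈ range m, vs A B T e j n i‖
      ≤ t ^ (j - i) * (2 * (α * t + b * t⁻¹) * ((α * t + b * t⁻¹) * τ) ^ m) := by
  have hα : 0 ≤ α := (norm_nonneg _).trans hA
  have hb : 0 ≤ b := (norm_nonneg _).trans hB
  have hτ : 0 ≤ τ := (norm_nonneg _).trans (hT 0)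
  set ρ := α * t + b * t⁻¹ with hρdef
  have hρ0 : 0 ≤ ρ := by positivity
  have hs := summable_vs (j := j) hA hB hT he ht hρ i
  have e1 : Vs A B T e j i - ∑ n ∈ range m, vs A B T e j n i = ∑' n, vs A B T e j (n + m) i := by
    rw [Vs, ← hs.sum_add_tsum_nat_add m]; abel
  rw [e1]
  have hgeo : HasSum (fun n : ℕ => t ^ (j - i) * (ρ * (ρ * τ) ^ m) * (ρ * τ) ^ n)
      (t ^ (j - i) * (ρ * (ρ * τ) ^ m) * (1 - ρ * τ)⁻¹) :=
    (hasSum_geometric_of_lt_one (by positivity) (by linarith)).mul_left _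
  have h2 := tsum_of_norm_bounded hgeo (f := fun n => vs A B T e j (n + m) i) (by
    intro n
    refine (norm_vs_le hA hB hT he ht (n + m) i).trans (le_of_eq ?_)
    rw [← hρdef, pow_add]; ring)
  refine h2.trans ?_
  have h3 : (1 - ρ * τ)⁻¹ ≤ 2 := by
    rw [inv_le_comm₀ (by linarith) (by norm_num)]; linarith
  calc t ^ (j - i) * (ρ * (ρ * τ) ^ m) * (1 - ρ * τ)⁻¹
      ≤ t ^ (j - i) * (ρ * (ρ * τ) ^ m) * 2 := by gcongr
    _ = t ^ (j - i) * (2 * ρ * (ρ * τ) ^ m) := by ring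

lemma norm_Vs_le (hA : ‖A‖ ≤ α) (hB : ‖B‖ ≤ b) (hT : ∀ i, ‖T i‖ ≤ τ) (he : ‖e‖ ≤ 1)
    {t : ℝ} (ht : 0 < t) (hρ : (α * t + b * t⁻¹) * τ ≤ 1 / 2) (i : ℤ) :
    ‖Vs A B T e j i‖ ≤ t ^ (j - i) * (2 * (α * t + b * t⁻¹)) := by
  have := norm_Vs_sub_le (j := j) hA hB hT he ht hρ i 0
  simpa using this

/-- Exponential decay of the channel components. -/
lemma norm_Vs_le_exp (hA : ‖A‖ ≤ α) (hB : ‖B‖ ≤ b) (hT : ∀ i, ‖T i‖ ≤ τ) (he : ‖e‖ ≤ 1)
    (hρ : (α + b) * τ ≤ 1 / 4) (i : ℤ) :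
    ‖Vs A B T e j i‖ ≤ 4 * (α + b) * (2 : ℝ)⁻¹ ^ (i - j).natAbs := by
  have hα : 0 ≤ α := (norm_nonneg _).trans hA
  have hb : 0 ≤ b := (norm_nonneg _).trans hB
  have hτ : 0 ≤ τ := (norm_nonneg _).trans (hT 0)
  rcases le_total j i with hij | hij
  · have h1 := norm_Vs_le (j := j) hA hB hT he (t := 2) two_pos (by
      calc (α * 2 + b * 2⁻¹) * τ ≤ (α * 2 + b * 2) * τ := by gcongr; norm_num
        _ = 2 * ((α + b) * τ) := by ring
        _ ≤ 1 / 2 := by linarith) i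
    have h2 : (2 : ℝ) ^ (j - i) = (2 : ℝ)⁻¹ ^ (i - j).natAbs := by
      have : (j - i) = -((i - j).natAbs : ℤ) := by
        rw [Int.natAbs_of_nonneg (by omega)]; ring
      rw [this, zpow_neg, zpow_natCast, inv_pow]
    rw [h2] at h1
    calc _ ≤ _ := h1
      _ ≤ (2 : ℝ)⁻¹ ^ (i - j).natAbs * (2 * (α * 2 + b * 2)) := by gcongr; norm_num
      _ = _ := by ring
  · have h1 := norm_Vs_le (j := j) hA hB hT he (t := 2⁻¹) (by norm_num) (by
      rw [inv_inv]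
      calc (α * 2⁻¹ + b * 2) * τ ≤ (α * 2 + b * 2) * τ := by gcongr; norm_num
        _ = 2 * ((α + b) * τ) := by ring
        _ ≤ 1 / 2 := by linarith) i
    have h2 : ((2 : ℝ)⁻¹) ^ (j - i) = (2 : ℝ)⁻¹ ^ (i - j).natAbs := by
      have : (j - i) = ((i - j).natAbs : ℤ) := by
        rw [← Int.natAbs_neg, neg_sub, Int.natAbs_of_nonneg (by omega)]
      rw [this, zpow_natCast]
    rw [h2, inv_inv] at h1
    calc _ ≤ _ := h1
      _ ≤ (2 : ℝ)⁻¹ ^ (i - j).natAbs * (2 * (α * 2 + b * 2)) := by gcongr; norm_num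
      _ = _ := by ring

/-- The Lippmann-Schwinger equation. -/
lemma Vs_eq (hA : ‖A‖ ≤ α) (hB : ‖B‖ ≤ b) (hT : ∀ i, ‖T i‖ ≤ τ) (he : ‖e‖ ≤ 1)
    (hρ : (α + b) * τ ≤ 1 / 2) (i : ℤ) :
    Vs A B T e j i = (if i = j + 1 then A e else 0) + (if i = j - 1 then B e else 0)
      - (A (T (i - 1) (Vs A B T e j (i - 1))) + B (T (i + 1) (Vs A B T e j (i + 1)))) := by
  have hρ' : (α * 1 + b * (1 : ℝ)⁻¹) * τ ≤ 1 / 2 := by simpa using hρ
  have hs := fun i => summable_vs (j := j) hA hB hT he (t := 1) one_pos hρ' i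
  have h1 : Vs A B T e j i = vs A B T e j 0 i + ∑' n, vs A B T e j (n + 1) i := by
    rw [Vs, ← (hs i).sum_add_tsum_nat_add 1]; simp
  rw [h1, vs_zero]
  have h2 : ∑' n, vs A B T e j (n + 1) i
      = -(A (T (i - 1) (Vs A B T e j (i - 1))) + B (T (i + 1) (Vs A B T e j (i + 1)))) := by
    have ha : HasSum (fun n => A (T (i - 1) (vs A B T e j n (i - 1))))
        (A (T (i - 1) (Vs A B T e j (i - 1)))) :=
      A.hasSum ((T (i - 1)).hasSum (hs (i - 1)).hasSum)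
    have hb' : HasSum (fun n => B (T (i + 1) (vs A B T e j n (i + 1))))
        (B (T (i + 1) (Vs A B T e j (i + 1)))) :=
      B.hasSum ((T (i + 1)).hasSum (hs (i + 1)).hasSum)
    exact ((ha.add hb').neg).tsum_eq
  rw [h2]; abel

section refined

variable {ℓ : X →L[ℂ] ℂ} {α' b' : ℝ}

lemma norm_diag_le (hA : ‖A‖ ≤ α) (hB : ‖B‖ ≤ b) (hT : ∀ i, ‖T i‖ ≤ τ) (he : ‖e‖ ≤ 1)
    (hℓ : ‖ℓ‖ ≤ 1) (hAe : ‖A e‖ ≤ α') (hBe : ‖B e‖ ≤ b') (hAℓ : ‖ℓ ∘L A‖ ≤ α')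
    (hBℓ : ‖ℓ ∘L B‖ ≤ b')
    {t : ℝ} (ht : 0 < t) (hρ : (α * t + b * t⁻¹) * τ ≤ 1 / 2) :
    ‖ℓ (Vs A B T e j j)‖ ≤ 2 * τ * α' * b' + 2 * (α * t + b * t⁻¹) ^ 4 * τ ^ 3 := by
  have hα : 0 ≤ α := (norm_nonneg _).trans hA
  have hb : 0 ≤ b := (norm_nonneg _).trans hB
  have hτ : 0 ≤ τ := (norm_nonneg _).trans (hT 0)
  have hα' : 0 ≤ α' := (norm_nonneg _).trans hAe
  have hb' : 0 ≤ b' := (norm_nonneg _).trans hBe
  have hTx : ∀ i, ∀ x : X, ‖T i x‖ ≤ τ * ‖x‖ := fun i x =>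
    ((T i).le_opNorm x).trans (mul_le_mul_of_nonneg_right (hT i) (norm_nonneg _))
  have hAℓx : ∀ x : X, ‖ℓ (A x)‖ ≤ α' * ‖x‖ := fun x =>
    ((ℓ ∘L A).le_opNorm x).trans (mul_le_mul_of_nonneg_right hAℓ (norm_nonneg _))
  have hBℓx : ∀ x : X, ‖ℓ (B x)‖ ≤ b' * ‖x‖ := fun x =>
    ((ℓ ∘L B).le_opNorm x).trans (mul_le_mul_of_nonneg_right hBℓ (norm_nonneg _))
  have h3 := norm_Vs_sub_le (j := j) hA hB hT he ht hρ j 3
  rw [sub_self, zpow_zero, one_mul] at h3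
  have h0 : vs A B T e j 0 j = 0 := vs_even_ne (k := -1) (by push_cast; ring)
  have h2 : vs A B T e j 2 j = 0 := vs_even_ne (k := -2) (by push_cast; ring)
  have h1 : vs A B T e j 1 j = -(A (T (j - 1) (B e)) + B (T (j + 1) (A e))) := by
    rw [vs_succ, vs_zero, vs_zero]
    rw [if_neg (by omega), if_pos rfl, if_pos rfl, if_neg (by omega)]; simp
  rw [sum_range_succ, sum_range_succ, sum_range_one, h0, h1, h2] at h3
  rw [zero_add, add_zero] at h3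
  have e1 : ℓ (Vs A B T e j j) = ℓ (Vs A B T e j j - -(A (T (j - 1) (B e)) + B (T (j + 1) (A e))))
      - (ℓ (A (T (j - 1) (B e))) + ℓ (B (T (j + 1) (A e)))) := by
    simp only [map_sub, map_neg, map_add]; ring
  rw [e1]
  have b1 : ‖ℓ (A (T (j - 1) (B e)))‖ ≤ α' * (τ * b') :=
    (hAℓx _).trans (mul_le_mul_of_nonneg_left ((hTx _ _).trans
      (mul_le_mul_of_nonneg_left hBe hτ)) hα')
  have b2 : ‖ℓ (B (T (j + 1) (A e)))‖ ≤ b' * (τ * α') :=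
    (hBℓx _).trans (mul_le_mul_of_nonneg_left ((hTx _ _).trans
      (mul_le_mul_of_nonneg_left hAe hτ)) hb')
  have b3 : ‖ℓ (Vs A B T e j j - -(A (T (j - 1) (B e)) + B (T (j + 1) (A e))))‖
      ≤ 1 * (2 * (α * t + b * t⁻¹) * ((α * t + b * t⁻¹) * τ) ^ 3) :=
    (ℓ.le_opNorm _).trans (mul_le_mul hℓ h3 (norm_nonneg _) zero_le_one)
  calc _ ≤ ‖ℓ (Vs A B T e j j - -(A (T (j - 1) (B e)) + B (T (j + 1) (A e))))‖
      + ‖ℓ (A (T (j - 1) (B e))) + ℓ (B (T (j + 1) (A e)))‖ := norm_sub_le _ _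
    _ ≤ 1 * (2 * (α * t + b * t⁻¹) * ((α * t + b * t⁻¹) * τ) ^ 3)
        + (α' * (τ * b') + b' * (τ * α')) :=
      add_le_add b3 ((norm_add_le _ _).trans (add_le_add b1 b2))
    _ = _ := by ring

lemma norm_raise_le (hA : ‖A‖ ≤ α) (hB : ‖B‖ ≤ b) (hT : ∀ i, ‖T i‖ ≤ τ) (he : ‖e‖ ≤ 1)
    (hℓ : ‖ℓ‖ ≤ 1) (hAe : ‖A e‖ ≤ α') (hBe : ‖B e‖ ≤ b') (hAℓ : ‖ℓ ∘L A‖ ≤ α')
    (hBℓ : ‖ℓ ∘L B‖ ≤ b')
    {t : ℝ} (ht : 0 < t) (hρ : (α * t + b * t⁻¹) * τ ≤ 1 / 2) :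
    ‖ℓ (Vs A B T e j (j + 1)) - ℓ (A e)‖ ≤ τ ^ 2 * (2 * α * α' * b' + b * α' ^ 2)
      + t⁻¹ * (2 * (α * t + b * t⁻¹) ^ 5 * τ ^ 4) := by
  have hα : 0 ≤ α := (norm_nonneg _).trans hA
  have hb : 0 ≤ b := (norm_nonneg _).trans hB
  have hτ : 0 ≤ τ := (norm_nonneg _).trans (hT 0)
  have hα' : 0 ≤ α' := (norm_nonneg _).trans hAe
  have hb' : 0 ≤ b' := (norm_nonneg _).trans hBe
  have hAx : ∀ x : X, ‖A x‖ ≤ α * ‖x‖ := fun x =>
    (A.le_opNorm x).trans (mul_le_mul_of_nonneg_right hA (norm_nonneg _))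
  have hBx : ∀ x : X, ‖B x‖ ≤ b * ‖x‖ := fun x =>
    (B.le_opNorm x).trans (mul_le_mul_of_nonneg_right hB (norm_nonneg _))
  have hTx : ∀ i, ∀ x : X, ‖T i x‖ ≤ τ * ‖x‖ := fun i x =>
    ((T i).le_opNorm x).trans (mul_le_mul_of_nonneg_right (hT i) (norm_nonneg _))
  have hAℓx : ∀ x : X, ‖ℓ (A x)‖ ≤ α' * ‖x‖ := fun x =>
    ((ℓ ∘L A).le_opNorm x).trans (mul_le_mul_of_nonneg_right hAℓ (norm_nonneg _))
  have hBℓx : ∀ x : X, ‖ℓ (B x)‖ ≤ b' * ‖x‖ := fun x =>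
    ((ℓ ∘L B).le_opNorm x).trans (mul_le_mul_of_nonneg_right hBℓ (norm_nonneg _))
  have h4 := norm_Vs_sub_le (j := j) hA hB hT he ht hρ (j + 1) 4
  rw [show j - (j + 1) = -1 by ring, zpow_neg_one] at h4
  have h0 : vs A B T e j 0 (j + 1) = A e := by
    rw [vs_zero, if_pos rfl, if_neg (by omega), add_zero]
  have h1 : vs A B T e j 1 (j + 1) = 0 := vs_even_ne (k := -1) (by push_cast; ring)
  have h3 : vs A B T e j 3 (j + 1) = 0 := vs_even_ne (k := -2) (by push_cast; ring)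
  have h11 : vs A B T e j 1 j = -(A (T (j - 1) (B e)) + B (T (j + 1) (A e))) := by
    rw [vs_succ, vs_zero, vs_zero]
    rw [if_neg (by omega), if_pos rfl, if_pos rfl, if_neg (by omega)]; simp
  have h12 : vs A B T e j 1 (j + 1 + 1) = -(A (T (j + 1) (A e))) := by
    rw [vs_succ, vs_zero, vs_zero, show j + 1 + 1 - 1 = j + 1 by ring]
    rw [if_pos rfl, if_neg (by omega), if_neg (by omega), if_neg (by omega)]; simp
  have h2 : vs A B T e j 2 (j + 1) = A (T j (A (T (j - 1) (B e)))) + A (T j (B (T (j + 1) (A e))))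
      + B (T (j + 1 + 1) (A (T (j + 1) (A e)))) := by
    rw [show (2 : ℕ) = 1 + 1 from rfl, vs_succ, show j + 1 - 1 = j by ring, h11, h12]
    simp only [map_neg, map_add]; abel
  rw [sum_range_succ, sum_range_succ, sum_range_succ, sum_range_one, h0, h1, h2, h3] at h4
  rw [add_zero, add_zero] at h4
  set D : X := Vs A B T e j (j + 1) - (A e + (A (T j (A (T (j - 1) (B e))))
    + A (T j (B (T (j + 1) (A e)))) + B (T (j + 1 + 1) (A (T (j + 1) (A e)))))) with hD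
  have e1 : ℓ (Vs A B T e j (j + 1)) - ℓ (A e) = ℓ D + (ℓ (A (T j (A (T (j - 1) (B e)))))
    + ℓ (A (T j (B (T (j + 1) (A e))))) + ℓ (B (T (j + 1 + 1) (A (T (j + 1) (A e)))))) := by
    rw [hD]; simp only [map_sub, map_add]; ring
  rw [e1]
  have b1 : ‖ℓ (A (T j (A (T (j - 1) (B e)))))‖ ≤ α' * (τ * (α * (τ * b'))) := by
    refine (hAℓx _).trans (mul_le_mul_of_nonneg_left ((hTx _ _).trans
      (mul_le_mul_of_nonneg_left ((hAx _).trans (mul_le_mul_of_nonneg_left ((hTx _ _).trans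
      (mul_le_mul_of_nonneg_left hBe hτ)) hα)) hτ)) hα')
  have b2 : ‖ℓ (A (T j (B (T (j + 1) (A e)))))‖ ≤ α' * (τ * (b * (τ * α'))) := by
    refine (hAℓx _).trans (mul_le_mul_of_nonneg_left ((hTx _ _).trans
      (mul_le_mul_of_nonneg_left ((hBx _).trans (mul_le_mul_of_nonneg_left ((hTx _ _).trans
      (mul_le_mul_of_nonneg_left hAe hτ)) hb)) hτ)) hα')
  have b3 : ‖ℓ (B (T (j + 1 + 1) (A (T (j + 1) (A e)))))‖ ≤ b' * (τ * (α * (τ * α'))) := by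
    refine (hBℓx _).trans (mul_le_mul_of_nonneg_left ((hTx _ _).trans
      (mul_le_mul_of_nonneg_left ((hAx _).trans (mul_le_mul_of_nonneg_left ((hTx _ _).trans
      (mul_le_mul_of_nonneg_left hAe hτ)) hα)) hτ)) hb')
  have b4 : ‖ℓ D‖ ≤ 1 * (t⁻¹ * (2 * (α * t + b * t⁻¹) * ((α * t + b * t⁻¹) * τ) ^ 4)) :=
    (ℓ.le_opNorm _).trans (mul_le_mul hℓ h4 (norm_nonneg _) zero_le_one)
  calc _ ≤ 1 * (t⁻¹ * (2 * (α * t + b * t⁻¹) * ((α * t + b * t⁻¹) * τ) ^ 4))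
      + (α' * (τ * (α * (τ * b'))) + α' * (τ * (b * (τ * α'))) + b' * (τ * (α * (τ * α')))) :=
      (norm_add_le _ _).trans (add_le_add b4 ((norm_add_le _ _).trans
        (add_le_add ((norm_add_le _ _).trans (add_le_add b1 b2)) b3)))
    _ = _ := by ring

lemma norm_lower_le (hA : ‖A‖ ≤ α) (hB : ‖B‖ ≤ b) (hT : ∀ i, ‖T i‖ ≤ τ) (he : ‖e‖ ≤ 1)
    (hℓ : ‖ℓ‖ ≤ 1)
    {t : ℝ} (ht : 0 < t) (hρ : (α * t + b * t⁻¹) * τ ≤ 1 / 2) :
    ‖ℓ (Vs A B T e j (j - 1)) - ℓ (B e)‖ ≤ t * (2 * (α * t + b * t⁻¹) ^ 3 * τ ^ 2) := by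
  have h2 := norm_Vs_sub_le (j := j) hA hB hT he ht hρ (j - 1) 2
  rw [show j - (j - 1) = 1 by ring, zpow_one] at h2
  have h0 : vs A B T e j 0 (j - 1) = B e := by
    rw [vs_zero, if_neg (by omega), if_pos rfl, zero_add]
  have h1 : vs A B T e j 1 (j - 1) = 0 := vs_even_ne (k := -2) (by push_cast; ring)
  rw [sum_range_succ, sum_range_one, h0, h1, add_zero] at h2
  rw [← map_sub]
  calc _ ≤ 1 * (t * (2 * (α * t + b * t⁻¹) * ((α * t + b * t⁻¹) * τ) ^ 2)) :=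
      (ℓ.le_opNorm _).trans (mul_le_mul hℓ h2 (norm_nonneg _) zero_le_one)
    _ = _ := by ring

end refined

end bounds

section holo

variable [CompleteSpace X] {Ω : Set ℂ} {A B : ℂ → X →L[ℂ] X} {T : ℤ → ℂ → X →L[ℂ] X} {e : ℂ → X}
  {ℓ : ℂ → X →L[ℂ] ℂ} {j : ℤ} {α b τ : ℝ}

omit [CompleteSpace X] in
lemma differentiableOn_vs (hA : DifferentiableOn ℂ A Ω) (hB : DifferentiableOn ℂ B Ω)
    (hT : ∀ i, DifferentiableOn ℂ (T i) Ω) (he : DifferentiableOn ℂ e Ω) (n : ℕ) (i : ℤ) :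
    DifferentiableOn ℂ (fun z => vs (A z) (B z) (fun i => T i z) (e z) j n i) Ω := by
  induction n generalizing i with
  | zero =>
    simp only [vs_zero]
    refine DifferentiableOn.add ?_ ?_
    · split_ifs
      · exact hA.clm_apply he
      · exact differentiableOn_const _
    · split_ifs
      · exact hB.clm_apply he
      · exact differentiableOn_const _
  | succ n ih =>
    simp only [vs_succ]
    exact ((hA.clm_apply ((hT _).clm_apply (ih _))).add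
      (hB.clm_apply ((hT _).clm_apply (ih _)))).neg

lemma differentiableOn_Vs (hΩ : IsOpen Ω) (hA : DifferentiableOn ℂ A Ω)
    (hB : DifferentiableOn ℂ B Ω)
    (hT : ∀ i, DifferentiableOn ℂ (T i) Ω) (he : DifferentiableOn ℂ e Ω)
    (hAn : ∀ z ∈ Ω, ‖A z‖ ≤ α) (hBn : ∀ z ∈ Ω, ‖B z‖ ≤ b) (hTn : ∀ z ∈ Ω, ∀ i, ‖T i z‖ ≤ τ)
    (hen : ∀ z ∈ Ω, ‖e z‖ ≤ 1) (hρ : (α + b) * τ ≤ 1 / 2) (i : ℤ) :
    DifferentiableOn ℂ (fun z => Vs (A z) (B z) (fun i => T i z) (e z) j i) Ω := by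
  rcases Ω.eq_empty_or_nonempty with h0 | ⟨z0, hz0⟩
  · rw [h0]; exact differentiableOn_empty
  have hα : 0 ≤ α := (norm_nonneg _).trans (hAn z0 hz0)
  have hb : 0 ≤ b := (norm_nonneg _).trans (hBn z0 hz0)
  have hτ : 0 ≤ τ := (norm_nonneg _).trans (hTn z0 hz0 0)
  have hρ' : (α * 1 + b * (1 : ℝ)⁻¹) * τ ≤ 1 / 2 := by simpa using hρ
  have hu : Summable fun n : ℕ => (1 : ℝ) ^ (j - i) * ((α * 1 + b * (1 : ℝ)⁻¹) *
      ((α * 1 + b * (1 : ℝ)⁻¹) * τ) ^ n) := by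
    refine Summable.mul_left _ (Summable.mul_left _ ?_)
    exact summable_geometric_of_lt_one (by positivity) (by linarith)
  exact Complex.differentiableOn_tsum_of_summable_norm hu
    (fun n => differentiableOn_vs hA hB hT he n i) hΩ
    (fun n z hz => norm_vs_le (hAn z hz) (hBn z hz) (hTn z hz) (hen z hz) one_pos n i)

end holo

end Pool.Agent.Helper98.CLTd
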