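import Pool.Agent.Helper98.CLTd.Radial
import Pool.Agent.Helper98.CLTd.Scatter

/-! The bilinear pairing on `L²(0,∞)` and the functions `e^{-s(r-1)}/r` on `[1,R]`. -/

namespace Pool.Agent.Helper98.CLTd

open MeasureTheory Set
open scoped ComplexConjugate ENNReal

/-- The bilinear pairing `∫ u x`. -/
noncomputable def pairL : E →L[ℂ] E →L[ℂ] ℂ := (ContinuousLinearMap.mul ℂ ℂ).lpPairing μ₀ 2 2

lemma pairL_apply (u x : E) : pairL u x = ∫ r in Ioi (0 : ℝ), u r * x r := by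
  rw [pairL, ContinuousLinearMap.lpPairing_eq_integral]; rfl

lemma integrable_pair (u x : E) : Integrable (fun r => u r * x r) μ₀ :=
  MemLp.integrable_mul (Lp.memLp u) (Lp.memLp x)

lemma norm_pairL_apply_le (u x : E) : ‖pairL u x‖ ≤ ‖u‖ * ‖x‖ := by
  have h1 : pairL u x = L1.integral ((ContinuousLinearMap.mul ℂ ℂ).holder 1 u x) := by
    rw [pairL_apply, L1.integral_eq_integral]
    exact (integral_congr_ae ((ContinuousLinearMap.mul ℂ ℂ).coeFn_holder u x)).symm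
  rw [h1]
  refine (L1.norm_integral_le _).trans ?_
  refine ((ContinuousLinearMap.mul ℂ ℂ).norm_holder_apply_apply_le u x).trans ?_
  have := ContinuousLinearMap.opNorm_mul_le ℂ ℂ
  calc _ ≤ 1 * ‖u‖ * ‖x‖ := by gcongr
    _ = _ := by ring

lemma norm_pairL_le (u : E) : ‖pairL u‖ ≤ ‖u‖ :=
  ContinuousLinearMap.opNorm_le_bound _ (norm_nonneg _) fun x => norm_pairL_apply_le u x

lemma pairL_mulOp {m : ℝ → ℂ} (hm : Measurable m) {C : ℝ} (hC : ∀ r, ‖m r‖ ≤ C) (u x : E) :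
    pairL u (mulOp m x) = pairL (mulOp m u) x := by
  rw [pairL_apply, pairL_apply]
  apply integral_congr_ae
  filter_upwards [mulOp_ae hm hC u, mulOp_ae hm hC x] with r h1 h2
  rw [h1, h2]; ring

/-- The weighted exponential `1_{[1,R]} e^{-s(r-1)}/r`. -/
noncomputable def eSf (R : ℝ) (s : ℂ) (r : ℝ) : ℂ := wR R r * Complex.exp (-s * (r - 1))

lemma measurable_eSf (R : ℝ) (s : ℂ) : Measurable (eSf R s) := by
  unfold eSf
  exact (measurable_wR R).mul (by fun_prop)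

lemma wR_of_mem {R r : ℝ} (h : r ∈ Icc (1 : ℝ) R) : wR R r = ((1 / r : ℝ) : ℂ) := by
  rw [wR, indicator_of_mem h]

lemma wR_of_notMem {R r : ℝ} (h : r ∉ Icc (1 : ℝ) R) : wR R r = 0 := by
  rw [wR, indicator_of_notMem h]

lemma norm_wR (R r : ℝ) : ‖wR R r‖ = (Icc (1 : ℝ) R).indicator (fun r => 1 / r) r := by
  by_cases h : r ∈ Icc (1 : ℝ) R
  · rw [wR_of_mem h, indicator_of_mem h, Complex.norm_real, Real.norm_eq_abs,
      abs_of_nonneg (by have := h.1; positivity)]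
  · rw [wR_of_notMem h, indicator_of_notMem h, norm_zero]

lemma memLp_of_bound_supp {f : ℝ → ℂ} (hf : Measurable f) {C a b : ℝ}
    (hC : ∀ r, ‖f r‖ ≤ C) (hs : ∀ r, r ∉ Icc a b → f r = 0) : MemLp f 2 μ₀ := by
  have h1 : MemLp (fun _ : ℝ => C) 2 (μ₀.restrict (Icc a b)) := by
    have : IsFiniteMeasure (μ₀.restrict (Icc a b)) := by
      constructor
      rw [Measure.restrict_apply MeasurableSet.univ, univ_inter]
      calc μ₀ (Icc a b) ≤ volume (Icc a b) := Measure.restrict_apply_le _ _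
        _ < ∞ := by rw [Real.volume_Icc]; exact ENNReal.ofReal_lt_top
    exact memLp_const C
  have h2 : MemLp ((Icc a b).indicator (fun _ : ℝ => C)) 2 μ₀ :=
    (memLp_indicator_iff_restrict measurableSet_Icc).2 h1
  refine h2.of_le hf.aestronglyMeasurable ?_
  filter_upwards with r
  by_cases h : r ∈ Icc a b
  · rw [indicator_of_mem h, Real.norm_eq_abs]; exact (hC r).trans (le_abs_self _)
  · rw [hs r h, norm_zero]; positivity

lemma memLp_wR (R : ℝ) : MemLp (wR R) 2 μ₀ :=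
  memLp_of_bound_supp (measurable_wR R) (norm_wR_le R) fun _ h => wR_of_notMem h

lemma norm_exp_le {R : ℝ} {s : ℂ} {r : ℝ} (h : r ∈ Icc (1 : ℝ) R) :
    ‖Complex.exp (-s * (r - 1))‖ ≤ Real.exp (‖s‖ * R) := by
  rw [Complex.norm_exp]
  apply Real.exp_le_exp.2
  calc (-s * (r - 1)).re ≤ ‖-s * (r - 1)‖ := Complex.re_le_norm _
    _ = ‖s‖ * (r - 1) := by
      rw [norm_mul, norm_neg]
      have : ((r : ℂ) - 1) = ((r - 1 : ℝ) : ℂ) := by push_cast; ring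
      rw [this, Complex.norm_real, Real.norm_eq_abs, abs_of_nonneg (by linarith [h.1])]
    _ ≤ ‖s‖ * R := by gcongr; linarith [h.2]

lemma norm_eSf_le (R : ℝ) (s : ℂ) (r : ℝ) : ‖eSf R s r‖ ≤ Real.exp (‖s‖ * R) * ‖wR R r‖ := by
  unfold eSf
  by_cases h : r ∈ Icc (1 : ℝ) R
  · rw [norm_mul, mul_comm]; gcongr; exact norm_exp_le h
  · rw [wR_of_notMem h]; simp

lemma memLp_eSf (R : ℝ) (s : ℂ) : MemLp (eSf R s) 2 μ₀ := by
  refine ((memLp_wR R).const_mul (Real.exp (‖s‖ * R) : ℂ)).of_le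
    (measurable_eSf R s).aestronglyMeasurable ?_
  filter_upwards with r
  rw [norm_mul, Complex.norm_real, Real.norm_eq_abs, abs_of_nonneg (Real.exp_pos _).le]
  exact norm_eSf_le R s r

noncomputable def eS (R : ℝ) (s : ℂ) : E := (memLp_eSf R s).toLp _

lemma eS_ae (R : ℝ) (s : ℂ) : ∀ᵐ r ∂μ₀, eS R s r = eSf R s r := MemLp.coeFn_toLp (memLp_eSf R s)

lemma norm_eSf_le' {R : ℝ} {s : ℂ} (hs : 0 ≤ s.re) (r : ℝ) : ‖eSf R s r‖ ≤ ‖wR R r‖ := by
  unfold eSf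
  by_cases h : r ∈ Icc (1 : ℝ) R
  · rw [norm_mul]
    have : ‖Complex.exp (-s * (r - 1))‖ ≤ 1 := by
      rw [Complex.norm_exp]
      apply Real.exp_le_one_iff.2
      have : ((r : ℂ) - 1) = ((r - 1 : ℝ) : ℂ) := by push_cast; ring
      rw [this, Complex.re_mul_ofReal]
      simp only [Complex.neg_re]
      nlinarith [h.1]
    calc ‖wR R r‖ * ‖Complex.exp (-s * (r - 1))‖ ≤ ‖wR R r‖ * 1 := by gcongr
      _ = _ := mul_one _
  · rw [wR_of_notMem h]; simp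

/-- the square of the norm in `E`. -/
lemma norm_sq_E (f : E) : ‖f‖ ^ 2 = ∫ r in Ioi (0 : ℝ), ‖f r‖ ^ 2 := by
  have h := MeasureTheory.L2.inner_def (𝕜 := ℂ) f f
  have h2 : ‖f‖ ^ 2 = RCLike.re (inner ℂ f f) := norm_sq_eq_re_inner f
  rw [h2, h]
  have : (∫ a, inner ℂ (f a) (f a) ∂μ₀) = ((∫ r in Ioi (0 : ℝ), ‖f r‖ ^ 2 : ℝ) : ℂ) := by
    rw [← integral_complex_ofReal]
    congr 1; ext a
    rw [inner_self_eq_norm_sq_to_K]; norm_cast
  rw [this]; simp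

lemma norm_le_of_ae {f : E} {g : ℝ → ℝ} {c : ℝ} (hc : 0 ≤ c) (hg : ∀ᵐ r ∂μ₀, ‖f r‖ ^ 2 ≤ g r)
    (hgi : Integrable g μ₀) (h : ∫ r in Ioi (0 : ℝ), g r ≤ c ^ 2) : ‖f‖ ≤ c := by
  have h1 : ‖f‖ ^ 2 ≤ c ^ 2 := by
    rw [norm_sq_E]
    exact (integral_mono_ae ((Lp.memLp f).norm.integrable_sq) hgi hg).trans h
  exact le_of_sq_le_sq h1 hc

end Pool.Agent.Helper98.CLTd
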