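import Pool.Agent.Helper98.CLTd.Defs

/-! Interface for the radial (angular momentum channel) part of the construction. -/

namespace Pool.Agent.Helper98.CLTd

open MeasureTheory Set
open scoped ComplexConjugate ENNReal

/-- Lebesgue measure on the half line. -/
noncomputable abbrev μ₀ : Measure ℝ := volume.restrict (Ioi (0 : ℝ))

/-- `L²(0,∞)`. -/
abbrev E : Type := Lp ℂ 2 μ₀

/-- Admissible radial test functions: twice differentiable on `(0,∞)`, fast decay, and behaviour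
`r^{3/2}` at `0`. -/
structure Adm (χ χ' χ'' : ℝ → ℂ) : Prop where
  d1 : ∀ r, 0 < r → HasDerivAt χ (χ' r) r
  d2 : ∀ r, 0 < r → HasDerivAt χ' (χ'' r) r
  cont : ContinuousOn χ'' (Ioi 0)
  bound : ∃ C : ℝ, ∀ r, 0 < r →
    ‖χ r‖ ≤ C * r ^ (3 / 2 : ℝ) / (1 + r) ^ 4 ∧ ‖χ' r‖ ≤ C * r ^ (1 / 2 : ℝ) / (1 + r) ^ 4 ∧
      ‖χ'' r‖ ≤ C * r ^ (-(1 / 2) : ℝ) / (1 + r) ^ 4

/-- `g` belongs to `H^1_0` of the half line `(l, ∞)` and `h = g'`; `g` and `h` vanish on
`(0, l)`. -/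
def InForm (l : ℝ) (g h : E) : Prop :=
  (∀ᵐ r ∂μ₀, g r = ∫ t in Ioc 0 r, h t) ∧ ∀ᵐ r ∂μ₀, r ≤ l → h r = 0

/-- The planar potential with angular components `0`, `2`, `-2`. -/
noncomputable def Vpl (v0 a b : ℝ → ℂ) (x : EuclideanSpace ℝ (Fin 2)) : ℂ :=
  v0 ‖x‖ + a ‖x‖ * (((x 0 : ℂ) + (x 1 : ℂ) * Complex.I) ^ 2 / (‖x‖ : ℂ) ^ 2)
    + b ‖x‖ * (((x 0 : ℂ) - (x 1 : ℂ) * Complex.I) ^ 2 / (‖x‖ : ℂ) ^ 2)

/-- The radial background potential. -/
noncomputable def v0fun (r : ℝ) : ℝ := if |r| < 1 then -24 / (7 - 3 * r ^ 2) else -3 / (4 * r ^ 2)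

/-- The radial potential `(m^2 - 1/4)/r^2 + v0` in the channel `j`, where `m = 2 j + 1`. -/
noncomputable def Qch (j : ℤ) (r : ℝ) : ℝ := ((2 * (j : ℝ) + 1) ^ 2 - 1 / 4) / r ^ 2 + v0fun r

/-- Extension by zero of a continuous function on `[2,R]`. -/
noncomputable def extC {R : ℝ} (a : C(Icc (2 : ℝ) R, ℂ)) (r : ℝ) : ℂ :=
  open Classical in if h : r ∈ Icc (2 : ℝ) R then a ⟨r, h⟩ else 0

lemma memLp_mul_of_bound {m : ℝ → ℂ} (hm : Measurable m) {C : ℝ} (hC : ∀ r, ‖m r‖ ≤ C) (f : E) :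
    MemLp (fun r => m r * f r) 2 μ₀ := by
  have h1 : MemLp m ∞ μ₀ := memLp_top_of_bound hm.aestronglyMeasurable C (by
    filter_upwards with r using hC r)
  have h2 := MemLp.mul (p := ∞) (q := 2) (r := 2) (Lp.memLp f) h1
  exact h2

/-- Multiplication by a bounded measurable function, as an operator on `L²(0,∞)` (it is `0` when
`m` is not bounded and measurable). -/
noncomputable def mulOp (m : ℝ → ℂ) : E →L[ℂ] E :=
  open Classical in
  if h : Measurable m ∧ ∃ C : ℝ, ∀ r, ‖m r‖ ≤ C then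
    LinearMap.mkContinuous
      { toFun := fun f => (memLp_mul_of_bound h.1 h.2.choose_spec f).toLp _
        map_add' := by
          intro f g
          apply Lp.ext
          filter_upwards [MemLp.coeFn_toLp (memLp_mul_of_bound h.1 h.2.choose_spec (f + g)),
            MemLp.coeFn_toLp (memLp_mul_of_bound h.1 h.2.choose_spec f),
            MemLp.coeFn_toLp (memLp_mul_of_bound h.1 h.2.choose_spec g),
            Lp.coeFn_add f g,
            Lp.coeFn_add ((memLp_mul_of_bound h.1 h.2.choose_spec f).toLp _)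
              ((memLp_mul_of_bound h.1 h.2.choose_spec g).toLp _)] with r h1 h2 h3 h4 h5
          rw [h5, Pi.add_apply, h1, h2, h3, h4, Pi.add_apply]; ring
        map_smul' := by
          intro c f
          apply Lp.ext
          filter_upwards [MemLp.coeFn_toLp (memLp_mul_of_bound h.1 h.2.choose_spec (c • f)),
            MemLp.coeFn_toLp (memLp_mul_of_bound h.1 h.2.choose_spec f),
            Lp.coeFn_smul c f,
            Lp.coeFn_smul c ((memLp_mul_of_bound h.1 h.2.choose_spec f).toLp _)] with r h1 h2 h4 h5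
          simp only [RingHom.id_apply]
          rw [h5, Pi.smul_apply, h1, h2, h4, Pi.smul_apply, smul_eq_mul, smul_eq_mul]; ring }
      (h.2.choose) (by
        intro f
        apply Lp.norm_le_mul_norm_of_ae_le_mul
        filter_upwards [MemLp.coeFn_toLp (memLp_mul_of_bound h.1 h.2.choose_spec f)] with r h1
        simp only [LinearMap.coe_mk, AddHom.coe_mk]
        rw [h1, norm_mul]
        exact mul_le_mul_of_nonneg_right (h.2.choose_spec r) (norm_nonneg _))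
  else 0

lemma mulOp_ae {m : ℝ → ℂ} (hm : Measurable m) {C : ℝ} (hC : ∀ r, ‖m r‖ ≤ C) (f : E) :
    ∀ᵐ r ∂μ₀, mulOp m f r = m r * f r := by
  have h : Measurable m ∧ ∃ C : ℝ, ∀ r, ‖m r‖ ≤ C := ⟨hm, C, hC⟩
  rw [mulOp, dif_pos h]
  exact MemLp.coeFn_toLp (memLp_mul_of_bound h.1 h.2.choose_spec f)

lemma norm_mulOp_apply_le {m : ℝ → ℂ} (hm : Measurable m) {C : ℝ} (hC : ∀ r, ‖m r‖ ≤ C) (f : E) :
    ‖mulOp m f‖ ≤ C * ‖f‖ := by
  apply Lp.norm_le_mul_norm_of_ae_le_mul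
  filter_upwards [mulOp_ae hm hC f] with r h1
  rw [h1, norm_mul]
  exact mul_le_mul_of_nonneg_right (hC r) (norm_nonneg _)

lemma norm_mulOp_le {m : ℝ → ℂ} (hm : Measurable m) {C : ℝ} (hC0 : 0 ≤ C) (hC : ∀ r, ‖m r‖ ≤ C) :
    ‖mulOp m‖ ≤ C :=
  ContinuousLinearMap.opNorm_le_bound _ hC0 fun f => norm_mulOp_apply_le hm hC f

/-- The weight `1_{[1,R]}/r`. -/
noncomputable def wR (R : ℝ) (r : ℝ) : ℂ := (Icc (1 : ℝ) R).indicator (fun r => ((1 / r : ℝ) : ℂ)) r

lemma measurable_wR (R : ℝ) : Measurable (wR R) := by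
  unfold wR
  refine Measurable.indicator ?_ measurableSet_Icc
  fun_prop

lemma norm_wR_le (R r : ℝ) : ‖wR R r‖ ≤ 1 := by
  unfold wR
  by_cases h : r ∈ Icc (1 : ℝ) R
  · rw [indicator_of_mem h]
    rw [Complex.norm_real, Real.norm_eq_abs, abs_of_nonneg (by have := h.1; positivity)]
    rw [div_le_one (by linarith [h.1])]; exact h.1
  · rw [indicator_of_notMem h]; simp

end Pool.Agent.Helper98.CLTd
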