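import Pool.Agent.Helper98.CLTd.Defs

/-! The definitions used in the final statement. They are broken into small pieces so that the
statement prints briefly; `Bridge.lean` shows that they agree with the ones of `Defs.lean`. -/

namespace Pool.Agent.Helper98.CLTd.Stmt

open MeasureTheory SchwartzMap
open scoped ComplexConjugate SchwartzMap ENNReal

/-- Euclidean space. -/
abbrev X (d : ℕ) : Type := EuclideanSpace ℝ (Fin d)

/-- The Hilbert space of square integrable complex functions on `ℝ^d`. -/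
abbrev L2 (d : ℕ) : Type := Lp ℂ 2 (volume : Measure (X d))

/-- The value at `x` of (a representative of) `u`. -/
noncomputable def val {d : ℕ} (u : L2 d) (x : X d) : ℂ := u x

/-- Lebesgue integral over `ℝ^d`. -/
noncomputable def integ {d : ℕ} (f : X d → ℂ) : ℂ := ∫ x, f x

/-- The partial derivative in direction `x_i` of a Schwartz function. -/
noncomputable def partialD {d : ℕ} (i : Fin d) (φ : 𝓢(X d, ℂ)) (x : X d) : ℂ :=
  fderiv ℝ φ x (EuclideanSpace.single i 1)

/-- `v` is the weak (distributional) partial derivative of `u` in the direction `x_i`, both in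
`L2`. Thus `u` lies in the Sobolev space `H^1` exactly when such a `v` exists for every `i`. -/
def IsWeakPartial {d : ℕ} (i : Fin d) (u v : L2 d) : Prop :=
  ∀ φ : 𝓢(X d, ℂ), integ (fun x => val u x * partialD i φ x) = - integ (fun x => val v x * φ x)

/-- `u'` is the weak gradient of `u`. -/
def IsWeakGrad {d : ℕ} (u : L2 d) (u' : Fin d → L2 d) : Prop := ∀ i, IsWeakPartial i u (u' i)

/-- The sesquilinear pairing `∫ f conj φ`. -/
noncomputable def pairing {d : ℕ} (f : X d → ℂ) (φ : L2 d) : ℂ :=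
  integ (fun x => f x * conj (val φ x))

/-- The graph of the Schrodinger operator `-ħ^2 Δ + V` in `L2`, defined as the operator
of the form `ħ^2 ∫ ∇u · conj ∇φ + ∫ V u conj φ` with form domain `H^1`. -/
def HGraph {d : ℕ} (ħ : ℝ) (V : X d → ℂ) (u g : L2 d) : Prop :=
  ∃ u' : Fin d → L2 d, IsWeakGrad u u' ∧ ∀ (φ : L2 d) (φ' : Fin d → L2 d), IsWeakGrad φ φ' →
    Integrable (fun x => V x * val u x * conj (val φ x)) volume ∧
    (ħ : ℂ) ^ 2 * (∑ i, pairing (val (u' i)) (φ' i)) + pairing (fun x => V x * val u x) φ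
      = pairing (val g) φ

/-- The vector `g - E u`. -/
noncomputable def shift {d : ℕ} (E : ℂ) (u g : L2 d) : L2 d := g - E • u

/-- `u` is in the kernel of `(H - E)^k`, where `H` is the operator with graph `HGraph ħ V`. -/
def InKer {d : ℕ} (ħ : ℝ) (V : X d → ℂ) (E : ℂ) (k : ℕ) : L2 d → Prop :=
  Nat.rec (fun u => u = 0) (fun _ P u => ∃ g, HGraph ħ V u g ∧ P (shift E u g)) k

/-- All generalised eigenvectors of `H` for `E`, and `0`. -/
def genVectors {d : ℕ} (ħ : ℝ) (V : X d → ℂ) (E : ℂ) : Set (L2 d) := {u | ∃ k, InKer ħ V E k u}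

/-- The algebraic multiplicity of `E` as an eigenvalue of `H`: the dimension of the space of all
generalised eigenvectors (it is `0` when `E` is not an eigenvalue). -/
noncomputable def algMult {d : ℕ} (ħ : ℝ) (V : X d → ℂ) (E : ℂ) : ℕ∞ :=
  Cardinal.toENat (Module.rank ℂ (Submodule.span ℂ (genVectors ħ V E)))

/-- The distance of `E` to the half line `[0, ∞)`. -/
noncomputable def distPos (E : ℂ) : ℝ := Metric.infDist E {z : ℂ | 0 ≤ z.re ∧ z.im = 0}

/-- The sum over all `E` off `[0, ∞)` of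
`(algebraic multiplicity) * |E|^(-σ) * dist(E, [0, ∞))^(γ + σ)`. -/
noncomputable def eigenSum {d : ℕ} (ħ : ℝ) (V : X d → ℂ) (γ σ : ℝ) : ℝ≥0∞ :=
  ∑' E : {E : ℂ // ¬ (0 ≤ E.re ∧ E.im = 0)},
    (algMult ħ V E : ℝ≥0∞) * ENNReal.ofReal (‖(E : ℂ)‖ ^ (-σ) * distPos E ^ (γ + σ))

/-- The inequality `(*)` with the constant `C`: for all `ħ > 0` and all complex `V` in
`L^(γ + d/2)(ℝ^d)`, the sum `eigenSum` is at most `C * ħ^(-d) * ∫ |V|^(γ + d/2)`. -/
def DHK (d : ℕ) (γ σ C : ℝ) : Prop :=
  ∀ ħ : ℝ, 0 < ħ → ∀ V : X d → ℂ, MemLp V (ENNReal.ofReal (γ + d / 2)) volume →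
    eigenSum ħ V γ σ ≤ ENNReal.ofReal (C * ħ ^ (-(d : ℝ)) * ∫ x, ‖V x‖ ^ (γ + d / 2))

end Pool.Agent.Helper98.CLTd.Stmt
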