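import Pool.Agent.Helper98.CLTd.Born

/-! The reduced matching function `Zf` for the chosen parameters, expressed through `x = 1/N`. -/

namespace Pool.Agent.Helper98.CLTd

open MeasureTheory Set Filter Topology
open scoped ComplexConjugate ENNReal

/-- The reduced matching function. -/
noncomputable def Zf (R β : ℝ) (T : ℤ → ℂ → E →L[ℂ] E) (f : ℂ → ℂ) (a : C(Icc (2 : ℝ) R, ℂ))
    (s : ℂ) : ℂ :=
  (f s + Wf R β T a s 0 0) * (f s + Wf R β T a s (-1) (-1)) / Wf R β T a s (-1) 0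
    - (Wf R β T a s 0 (-1) - pairL (eS R s) (Aop a (eS R s)))

/-- The region of the complex plane where everything is controlled. -/
def Ux (x : ℝ) : Set ℂ := {s : ℂ | x ^ 204 / 2 < s.re ∧ s.re < 2 * x ^ 196 ∧ |s.im| < 2 * x ^ 196}

lemma isOpen_Ux (x : ℝ) : IsOpen (Ux x) := by
  unfold Ux
  refine IsOpen.inter ?_ (IsOpen.inter ?_ ?_)
  · exact isOpen_lt continuous_const Complex.continuous_re
  · exact isOpen_lt Complex.continuous_re continuous_const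
  · exact isOpen_lt Complex.continuous_im.abs continuous_const

lemma norm_le_of_mem_Ux {x : ℝ} (hx : 0 < x) {s : ℂ} (hs : s ∈ Ux x) : ‖s‖ ≤ 3 * x ^ 196 := by
  obtain ⟨h1, h2, h3⟩ := hs
  have h4 : 0 < s.re := lt_trans (by positivity) h1
  have h5 : ‖s‖ ^ 2 ≤ (3 * x ^ 196) ^ 2 := by
    rw [Complex.sq_norm, Complex.normSq_apply]
    have := abs_lt.1 h3
    nlinarith [pow_pos hx 196]
  exact le_of_sq_le_sq h5 (by positivity)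

lemma re_pos_of_mem_Ux {x : ℝ} (hx : 0 < x) {s : ℂ} (hs : s ∈ Ux x) : 0 < s.re :=
  lt_trans (by positivity) hs.1

lemma pow_small {x : ℝ} (hx : 0 < x) (hx1 : x ≤ 1 / 1000) {c : ℝ} (hc : 0 ≤ c) (m k : ℕ)
    (h : c * (1 / 1000) ^ k ≤ 1) : c * x ^ (m + k) ≤ x ^ m := by
  have h1 : x ^ k ≤ (1 / 1000) ^ k := pow_le_pow_left₀ hx.le hx1 k
  calc c * x ^ (m + k) = x ^ m * (c * x ^ k) := by rw [pow_add]; ring
    _ ≤ x ^ m * 1 := by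
      gcongr
      exact (mul_le_mul_of_nonneg_left h1 hc).trans h
    _ = x ^ m := mul_one _

section

variable {x : ℝ} {T : ℤ → ℂ → E →L[ℂ] E} {s : ℂ}

lemma tau_bound (hx : 0 < x) (hs : s ∈ Ux x)
    (hT : ∀ i s, 0 < s.re → ‖Th ((x ^ 204)⁻¹) T i s‖ ≤ 4 * (‖s‖ / s.re)) (i : ℤ) :
    ‖Th ((x ^ 204)⁻¹) T i s‖ ≤ 24 / x ^ 8 := by
  have h0 := re_pos_of_mem_Ux hx hs
  refine (hT i s h0).trans ?_
  have h1 := norm_le_of_mem_Ux hx hs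
  have h2 := hs.1
  have h3 : ‖s‖ / s.re ≤ 6 / x ^ 8 := by
    rw [div_le_div_iff₀ h0 (by positivity)]
    calc ‖s‖ * x ^ 8 ≤ 3 * x ^ 196 * x ^ 8 := by gcongr
      _ = 6 * (x ^ 204 / 2) := by ring
      _ ≤ 6 * s.re := by gcongr
  calc 4 * (‖s‖ / s.re) ≤ 4 * (6 / x ^ 8) := by gcongr
    _ = 24 / x ^ 8 := by ring

lemma rpow_R (hx : 0 < x) : ((x ^ 204)⁻¹ : ℝ) ^ (3 / 2 : ℝ) = (x ^ 306)⁻¹ := by
  have h1 : (x ^ 204)⁻¹ = ((x⁻¹) ^ (204 : ℕ)) := by rw [inv_pow]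
  rw [h1, ← Real.rpow_natCast, ← Real.rpow_mul (by positivity)]
  norm_num

lemma R_ge (hx : 0 < x) (hx1 : x ≤ 1 / 1000) : (2 : ℝ) ≤ (x ^ 204)⁻¹ := by
  rw [le_inv_comm₀ (by norm_num) (by positivity)]
  have := pow_small hx hx1 (c := 2) (by norm_num) 0 204 (by norm_num)
  simp only [zero_add, pow_zero] at this
  linarith

lemma num_q (hx : 0 < x) (hx1 : x ≤ 1 / 1000) :
    (2 * 10 ^ 5 * x ^ 170 + 4 * x ^ 10) * (24 / x ^ 8) ≤ 1 / 4 := by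
  have h1 : (2 * 10 ^ 5 * x ^ 170 + 4 * x ^ 10) * (24 / x ^ 8)
      = 4800000 * x ^ 162 + 96 * x ^ 2 := by field_simp; ring
  rw [h1]
  have h2 := pow_small hx hx1 (c := 4800000 * 8) (by norm_num) 0 162 (by norm_num)
  have h3 := pow_small hx hx1 (c := 96 * 8) (by norm_num) 0 2 (by norm_num)
  simp only [zero_add, pow_zero] at h2 h3
  linarith

lemma Wf_num (hx : 0 < x) (hx1 : x ≤ 1 / 1000) (hs : s ∈ Ux x)
    (hT : ∀ i s, 0 < s.re → ‖Th ((x ^ 204)⁻¹) T i s‖ ≤ 4 * (‖s‖ / s.re))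
    {a : C(Icc (2 : ℝ) ((x ^ 204)⁻¹), ℂ)} (ha : ‖a‖ ≤ 2 * (10 ^ 5 * x ^ 578)) :
    (∀ j, ‖Wf ((x ^ 204)⁻¹) (x ^ 10) T a s j j‖ ≤ x ^ 260) ∧
    (∀ j, ‖Wf ((x ^ 204)⁻¹) (x ^ 10) T a s (j + 1) j
      - pairL (eS ((x ^ 204)⁻¹) s) (Aop a (eS ((x ^ 204)⁻¹) s))‖ ≤ x ^ 420) ∧
    (∀ j, ‖Wf ((x ^ 204)⁻¹) (x ^ 10) T a s (j - 1) j
      - pairL (eS ((x ^ 204)⁻¹) s) (Bop (x ^ 10) (eS ((x ^ 204)⁻¹) s))‖ ≤ x ^ 160) := by
  have h := Wf_bounds (R := (x ^ 204)⁻¹) (β := x ^ 10) (T := T) (s := s) (τ := 24 / x ^ 8)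
    (R_ge hx hx1) (by positivity) (tau_bound hx hs hT) (re_pos_of_mem_Ux hx hs).le
    (Ā := 2 * (10 ^ 5 * x ^ 578)) (by positivity) ha (α := 2 * 10 ^ 5 * x ^ 170)
    (α' := 2 * 10 ^ 5 * x ^ 272) (by field_simp) (by rw [rpow_R hx]; field_simp)
    (num_q hx hx1)
  obtain ⟨h1, h2, h3⟩ := h
  refine ⟨fun j => (h1 j).trans ?_, fun j => (h2 j).trans ?_, fun j => (h3 j).trans ?_⟩
  · have e : 4 * (24 / x ^ 8) * (2 * 10 ^ 5 * x ^ 272) * x ^ 10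
        + 512 * (2 * 10 ^ 5 * x ^ 170) ^ 2 * (x ^ 10) ^ 2 * (24 / x ^ 8) ^ 3
        = 19200000 * x ^ (260 + 14) + 283115520000000000 * x ^ (260 + 76) := by
      field_simp; ring
    rw [e]
    have a1 := pow_small hx hx1 (c := 2 * 19200000) (by norm_num) 260 14 (by norm_num)
    have a2 := pow_small hx hx1 (c := 2 * 283115520000000000) (by norm_num) 260 76 (by norm_num)
    linarith
  · have e : (24 / x ^ 8) ^ 2 * (4 * (2 * 10 ^ 5 * x ^ 170) * (2 * 10 ^ 5 * x ^ 272) * x ^ 10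
        + 4 * x ^ 10 * (2 * 10 ^ 5 * x ^ 272) ^ 2)
        + 1024 * (2 * 10 ^ 5 * x ^ 170) ^ 3 * (x ^ 10) ^ 2 * (24 / x ^ 8) ^ 4
        = 92160000000000 * x ^ (420 + 16) + 92160000000000 * x ^ (420 + 118)
          + 2717908992000000000000000 * x ^ (420 + 78) := by
      field_simp; ring
    rw [e]
    have a1 := pow_small hx hx1 (c := 3 * 92160000000000) (by norm_num) 420 16 (by norm_num)
    have a2 := pow_small hx hx1 (c := 3 * 92160000000000) (by norm_num) 420 118 (by norm_num)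
    have a3 := pow_small hx hx1 (c := 3 * 2717908992000000000000000) (by norm_num) 420 78
      (by norm_num)
    linarith
  · have e : 256 * (2 * 10 ^ 5 * x ^ 170) * (x ^ 10) ^ 2 * (24 / x ^ 8) ^ 2
        = 29491200000 * x ^ (160 + 14) := by
      field_simp; ring
    rw [e]
    exact pow_small hx hx1 (by norm_num) 160 14 (by norm_num)

lemma b0_bounds {b0 : ℂ} (h : ‖b0 - ((x ^ 10 : ℝ) : ℂ)‖ ≤ x ^ 10 / 4) (hx : 0 < x) :
    3 / 4 * x ^ 10 ≤ ‖b0‖ ∧ ‖b0‖ ≤ 5 / 4 * x ^ 10 := by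
  have h1 : ‖((x ^ 10 : ℝ) : ℂ)‖ = x ^ 10 := by
    rw [Complex.norm_real, Real.norm_of_nonneg (by positivity)]
  have h2 := norm_sub_norm_le ((x ^ 10 : ℝ) : ℂ) b0
  rw [norm_sub_rev] at h2
  have h3 := norm_sub_norm_le b0 ((x ^ 10 : ℝ) : ℂ)
  constructor <;> linarith

lemma D_bound (hx : 0 < x) (hx1 : x ≤ 1 / 1000) {b0 D : ℂ}
    (h : ‖b0 - ((x ^ 10 : ℝ) : ℂ)‖ ≤ x ^ 10 / 4) (hD : ‖D - b0‖ ≤ x ^ 160) :
    x ^ 10 / 2 ≤ ‖D‖ := by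
  have h1 := (b0_bounds h hx).1
  have h2 := norm_sub_norm_le b0 D
  rw [norm_sub_rev] at h2
  have h3 := pow_small hx hx1 (c := 4) (by norm_num) 10 150 (by norm_num)
  norm_num at h3
  linarith

lemma Z_close (hx : 0 < x) (hx1 : x ≤ 1 / 1000) {f w0 w1 D b0 ρ : ℂ} (hf : ‖f‖ ≤ 4 * x ^ 196)
    (hw0 : ‖w0‖ ≤ x ^ 260) (hw1 : ‖w1‖ ≤ x ^ 260) (hD : ‖D - b0‖ ≤ x ^ 160)
    (hb0 : ‖b0 - ((x ^ 10 : ℝ) : ℂ)‖ ≤ x ^ 10 / 4) (hρ : ‖ρ‖ ≤ x ^ 420) :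
    ‖(f + w0) * (f + w1) / D - ρ - f ^ 2 / b0‖ ≤ 2 * x ^ 420 := by
  have hDb := D_bound hx hx1 hb0 hD
  have hb := (b0_bounds hb0 hx).1
  have hx10 : 0 < x ^ 10 := by positivity
  have hDpos : 0 < ‖D‖ := by linarith
  have hbpos : 0 < ‖b0‖ := by linarith
  have hD0 : D ≠ 0 := norm_pos_iff.1 hDpos
  have hb00 : b0 ≠ 0 := norm_pos_iff.1 hbpos
  have e : (f + w0) * (f + w1) / D - ρ - f ^ 2 / b0
      = (f * (w0 + w1) + w0 * w1) / D - f ^ 2 * (D - b0) / (D * b0) - ρ := by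
    field_simp; ring
  rw [e]
  have n1 : ‖(f * (w0 + w1) + w0 * w1) / D‖
      ≤ (4 * x ^ 196 * (x ^ 260 + x ^ 260) + x ^ 260 * x ^ 260) / (x ^ 10 / 2) := by
    rw [norm_div]
    have : ‖f * (w0 + w1) + w0 * w1‖ ≤ 4 * x ^ 196 * (x ^ 260 + x ^ 260) + x ^ 260 * x ^ 260 := by
      refine (norm_add_le _ _).trans (add_le_add ?_ ?_)
      · rw [norm_mul]
        exact mul_le_mul hf ((norm_add_le _ _).trans (add_le_add hw0 hw1)) (norm_nonneg _)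
          (by positivity)
      · rw [norm_mul]
        exact mul_le_mul hw0 hw1 (norm_nonneg _) (by positivity)
    gcongr
  have n2 : ‖f ^ 2 * (D - b0) / (D * b0)‖
      ≤ (4 * x ^ 196) ^ 2 * x ^ 160 / (x ^ 10 / 2 * (3 / 4 * x ^ 10)) := by
    rw [norm_div, norm_mul, norm_mul, norm_pow]
    gcongr
  have n3 : (4 * x ^ 196 * (x ^ 260 + x ^ 260) + x ^ 260 * x ^ 260) / (x ^ 10 / 2)
      = 16 * x ^ 446 + 2 * x ^ 510 := by
    field_simp; ring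
  have n4 : (4 * x ^ 196) ^ 2 * x ^ 160 / (x ^ 10 / 2 * (3 / 4 * x ^ 10))
      = 128 / 3 * x ^ 532 := by
    field_simp; ring
  have a1 : 3 * 16 * x ^ 446 ≤ x ^ 420 := pow_small hx hx1 (by norm_num) 420 26 (by norm_num)
  have a2 : 3 * 2 * x ^ 510 ≤ x ^ 420 := pow_small hx hx1 (by norm_num) 420 90 (by norm_num)
  have a3 : 3 * (128 / 3) * x ^ 532 ≤ x ^ 420 :=
    pow_small hx hx1 (by norm_num) 420 112 (by norm_num)
  rw [n3] at n1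
  rw [n4] at n2
  calc _ ≤ ‖(f * (w0 + w1) + w0 * w1) / D - f ^ 2 * (D - b0) / (D * b0)‖ + ‖ρ‖ := norm_sub_le _ _
    _ ≤ (‖(f * (w0 + w1) + w0 * w1) / D‖ + ‖f ^ 2 * (D - b0) / (D * b0)‖) + ‖ρ‖ := by
        gcongr; exact norm_sub_le _ _
    _ ≤ 2 * x ^ 420 := by linarith

end

end Pool.Agent.Helper98.CLTd
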