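import Pool.Agent.Helper98.CLTd.ZFun

/-! Properties of the reduced matching function needed for the fixed point theorem. -/

namespace Pool.Agent.Helper98.CLTd

open MeasureTheory Set Filter Topology
open scoped ComplexConjugate ENNReal

section

variable {x : ℝ} {T : ℤ → ℂ → E →L[ℂ] E} {f : ℂ → ℂ} {Cf : ℝ}

lemma f_bounds {s : ℂ} (hf : ‖f s - s‖ ≤ Cf * ‖s‖ ^ 2)
    (hs : Cf * ‖s‖ ≤ 1 / 4) : 3 / 4 * ‖s‖ ≤ ‖f s‖ ∧ ‖f s‖ ≤ 5 / 4 * ‖s‖ := by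
  have h1 : ‖f s - s‖ ≤ ‖s‖ / 4 := by
    refine hf.trans ?_
    calc Cf * ‖s‖ ^ 2 = (Cf * ‖s‖) * ‖s‖ := by ring
      _ ≤ 1 / 4 * ‖s‖ := by gcongr
      _ = ‖s‖ / 4 := by ring
  have h2 := norm_sub_norm_le (f s) s
  have h3 := norm_sub_norm_le s (f s)
  rw [norm_sub_rev] at h3
  constructor <;> linarith

lemma x_small (hx : 0 < x) (hx1 : x ≤ 1 / 1000) : 3 * x ^ 196 ≤ 1 / 16 := by
  have := pow_small hx hx1 (c := 48) (by norm_num) 0 196 (by norm_num)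
  simp only [zero_add, pow_zero] at this
  linarith

lemma Zf_close (hx : 0 < x) (hx1 : x ≤ 1 / 1000) {s : ℂ} (hs : s ∈ Ux x)
    (hT : ∀ i s, 0 < s.re → ‖Th ((x ^ 204)⁻¹) T i s‖ ≤ 4 * (‖s‖ / s.re))
    (hC : 0 < Cf) (hxC : Cf * (3 * x ^ 196) ≤ 1 / 4)
    (hf : ∀ s : ℂ, ‖s‖ < 1 / 2 → ‖f s - s‖ ≤ Cf * ‖s‖ ^ 2)
    {a : C(Icc (2 : ℝ) ((x ^ 204)⁻¹), ℂ)} (ha : ‖a‖ ≤ 2 * (10 ^ 5 * x ^ 578)) :
    ‖Zf ((x ^ 204)⁻¹) (x ^ 10) T f a s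
      - f s ^ 2 / pairL (eS ((x ^ 204)⁻¹) s) (Bop (x ^ 10) (eS ((x ^ 204)⁻¹) s))‖
      ≤ 2 * x ^ 420 := by
  have hs1 := norm_le_of_mem_Ux hx hs
  have hs2 : ‖s‖ ≤ 1 / 16 := hs1.trans (x_small hx hx1)
  have hf1 := f_bounds (hf s (by linarith)) ((mul_le_mul_of_nonneg_left hs1 hC.le).trans hxC)
  obtain ⟨h1, h2, h3⟩ := Wf_num hx hx1 hs hT ha
  have h4 := h2 (-1)
  have h5 := h3 0
  rw [show (-1 : ℤ) + 1 = 0 by norm_num] at h4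
  rw [show (0 : ℤ) - 1 = -1 by norm_num] at h5
  exact Z_close hx hx1 (by linarith) (h1 0) (h1 (-1)) h5
    (norm_b0_sub_le (R_ge hx hx1) (by positivity) hs2) h4

lemma W10_ne (hx : 0 < x) (hx1 : x ≤ 1 / 1000) {s : ℂ} (hs : s ∈ Ux x)
    (hT : ∀ i s, 0 < s.re → ‖Th ((x ^ 204)⁻¹) T i s‖ ≤ 4 * (‖s‖ / s.re))
    {a : C(Icc (2 : ℝ) ((x ^ 204)⁻¹), ℂ)} (ha : ‖a‖ ≤ 2 * (10 ^ 5 * x ^ 578)) :
    Wf ((x ^ 204)⁻¹) (x ^ 10) T a s (-1) 0 ≠ 0 := by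
  have hs1 := norm_le_of_mem_Ux hx hs
  have hs2 : ‖s‖ ≤ 1 / 16 := hs1.trans (x_small hx hx1)
  obtain ⟨h1, h2, h3⟩ := Wf_num hx hx1 hs hT ha
  have h5 := h3 0
  rw [show (0 : ℤ) - 1 = -1 by norm_num] at h5
  have h6 := D_bound hx hx1 (norm_b0_sub_le (R_ge hx hx1) (by positivity) hs2) h5
  rw [← norm_pos_iff]
  exact lt_of_lt_of_le (by positivity) h6

lemma Zf_norm_le (hx : 0 < x) (hx1 : x ≤ 1 / 1000) {s : ℂ} (hs : s ∈ Ux x)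
    (hT : ∀ i s, 0 < s.re → ‖Th ((x ^ 204)⁻¹) T i s‖ ≤ 4 * (‖s‖ / s.re))
    (hC : 0 < Cf) (hxC : Cf * (3 * x ^ 196) ≤ 1 / 4)
    (hf : ∀ s : ℂ, ‖s‖ < 1 / 2 → ‖f s - s‖ ≤ Cf * ‖s‖ ^ 2)
    {a : C(Icc (2 : ℝ) ((x ^ 204)⁻¹), ℂ)} (ha : ‖a‖ ≤ 2 * (10 ^ 5 * x ^ 578)) :
    ‖Zf ((x ^ 204)⁻¹) (x ^ 10) T f a s‖ ≤ 22 * x ^ 382 := by
  have hs1 := norm_le_of_mem_Ux hx hs
  have hs2 : ‖s‖ ≤ 1 / 16 := hs1.trans (x_small hx hx1)
  have hf1 := f_bounds (hf s (by linarith)) ((mul_le_mul_of_nonneg_left hs1 hC.le).trans hxC)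
  have hb := b0_bounds (norm_b0_sub_le (R_ge hx hx1) (β := x ^ 10) (by positivity) hs2) hx
  have h1 := Zf_close hx hx1 hs hT hC hxC hf ha
  set Z := Zf ((x ^ 204)⁻¹) (x ^ 10) T f a s
  set b0 := pairL (eS ((x ^ 204)⁻¹) s) (Bop (x ^ 10) (eS ((x ^ 204)⁻¹) s))
  have h2 : ‖f s ^ 2 / b0‖ ≤ (4 * x ^ 196) ^ 2 / (3 / 4 * x ^ 10) := by
    rw [norm_div, norm_pow]
    have : ‖f s‖ ≤ 4 * x ^ 196 := by linarith [pow_pos hx 196]
    gcongr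
    exact hb.1
  have h3 : (4 * x ^ 196) ^ 2 / (3 / 4 * x ^ 10) = 64 / 3 * x ^ 382 := by field_simp; ring
  rw [h3] at h2
  have h4 := norm_sub_norm_le Z (f s ^ 2 / b0)
  have h5 : 6 * x ^ 420 ≤ x ^ 382 := pow_small hx hx1 (by norm_num) 382 38 (by norm_num)
  have h6 := pow_pos hx 382
  linarith

lemma mem_Ux_of {s : ℂ} (hx : 0 < x) (hx1 : x ≤ 1 / 1000) (h1 : x ^ 202 / 2 ≤ ‖s‖)
    (h2 : ‖s‖ ≤ 2 * x ^ 202) (h3 : ‖s‖ / 2 ≤ s.re) : s ∈ Ux x := by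
  have a1 : 3 * x ^ 204 ≤ x ^ 202 := pow_small hx hx1 (by norm_num) 202 2 (by norm_num)
  have a2 : 2 * x ^ 202 ≤ x ^ 196 := pow_small hx hx1 (by norm_num) 196 6 (by norm_num)
  have p1 := pow_pos hx 204
  have p2 := pow_pos hx 196
  refine ⟨by linarith, ?_, ?_⟩
  · have := Complex.re_le_norm s; linarith
  · have := Complex.abs_im_le_norm s; linarith

lemma Zf_norm_ge (hx : 0 < x) (hx1 : x ≤ 1 / 1000) {s : ℂ} (h1 : x ^ 202 / 2 ≤ ‖s‖)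
    (h2 : ‖s‖ ≤ 2 * x ^ 202) (h3 : ‖s‖ / 2 ≤ s.re)
    (hT : ∀ i s, 0 < s.re → ‖Th ((x ^ 204)⁻¹) T i s‖ ≤ 4 * (‖s‖ / s.re))
    (hC : 0 < Cf) (hxC : Cf * (3 * x ^ 196) ≤ 1 / 4)
    (hf : ∀ s : ℂ, ‖s‖ < 1 / 2 → ‖f s - s‖ ≤ Cf * ‖s‖ ^ 2)
    {a : C(Icc (2 : ℝ) ((x ^ 204)⁻¹), ℂ)} (ha : ‖a‖ ≤ 2 * (10 ^ 5 * x ^ 578)) :
    x ^ 394 / 10 ≤ ‖Zf ((x ^ 204)⁻¹) (x ^ 10) T f a s‖ := by
  have hs := mem_Ux_of hx hx1 h1 h2 h3
  have hs1 := norm_le_of_mem_Ux hx hs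
  have hs2 : ‖s‖ ≤ 1 / 16 := hs1.trans (x_small hx hx1)
  have hf1 := f_bounds (hf s (by linarith)) ((mul_le_mul_of_nonneg_left hs1 hC.le).trans hxC)
  have hb := b0_bounds (norm_b0_sub_le (R_ge hx hx1) (β := x ^ 10) (by positivity) hs2) hx
  have h4 := Zf_close hx hx1 hs hT hC hxC hf ha
  set Z := Zf ((x ^ 204)⁻¹) (x ^ 10) T f a s
  set b0 := pairL (eS ((x ^ 204)⁻¹) s) (Bop (x ^ 10) (eS ((x ^ 204)⁻¹) s))
  have hbpos : 0 < ‖b0‖ := lt_of_lt_of_le (by positivity) hb.1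
  have h5 : (3 / 4 * (x ^ 202 / 2)) ^ 2 / (5 / 4 * x ^ 10) ≤ ‖f s ^ 2 / b0‖ := by
    rw [norm_div, norm_pow]
    have : 3 / 4 * (x ^ 202 / 2) ≤ ‖f s‖ := by linarith
    gcongr
    exact hb.2
  have h6 : (3 / 4 * (x ^ 202 / 2)) ^ 2 / (5 / 4 * x ^ 10) = 9 / 80 * x ^ 394 := by
    field_simp; ring
  rw [h6] at h5
  have h7 := norm_sub_norm_le (f s ^ 2 / b0) Z
  rw [norm_sub_rev] at h7
  have h8 : 160 * x ^ 420 ≤ x ^ 394 := pow_small hx hx1 (by norm_num) 394 26 (by norm_num)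
  linarith

lemma Zf_differentiableOn (hx : 0 < x) (hx1 : x ≤ 1 / 1000)
    (hTd : ∀ i, DifferentiableOn ℂ (T i) {s | 0 < s.re})
    (hT : ∀ i s, 0 < s.re → ‖Th ((x ^ 204)⁻¹) T i s‖ ≤ 4 * (‖s‖ / s.re))
    (hfd : DifferentiableOn ℂ f (Metric.ball 0 (1 / 2)))
    {a : C(Icc (2 : ℝ) ((x ^ 204)⁻¹), ℂ)} (ha : ‖a‖ ≤ 2 * (10 ^ 5 * x ^ 578)) :
    DifferentiableOn ℂ (Zf ((x ^ 204)⁻¹) (x ^ 10) T f a) (Ux x) := by
  have hA : ‖Aop a‖ ≤ 2 * 10 ^ 5 * x ^ 170 := by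
    refine (norm_Aop_le a).trans ?_
    calc ‖a‖ * ((x ^ 204)⁻¹) ^ 2 ≤ 2 * (10 ^ 5 * x ^ 578) * ((x ^ 204)⁻¹) ^ 2 := by gcongr
      _ = _ := by field_simp
  have hTU : ∀ i, DifferentiableOn ℂ (T i) (Ux x) := fun i =>
    (hTd i).mono fun s hs => re_pos_of_mem_Ux hx hs
  have hW : ∀ i j, DifferentiableOn ℂ (fun s => Wf ((x ^ 204)⁻¹) (x ^ 10) T a s i j) (Ux x) :=
    fun i j => differentiableOn_Wf_s (isOpen_Ux x) (by positivity) hTU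
      (fun s hs i => tau_bound hx hs hT i) (fun s hs => (re_pos_of_mem_Ux hx hs).le) hA
      (num_q hx hx1) i j
  have hfU : DifferentiableOn ℂ f (Ux x) := hfd.mono fun s hs => by
    have := (norm_le_of_mem_Ux hx hs).trans (x_small hx hx1)
    simp only [Metric.mem_ball, dist_zero_right]; linarith
  have hed : DifferentiableOn ℂ (eS ((x ^ 204)⁻¹)) (Ux x) := fun s _ =>
    (hasDerivAt_eS _ s).differentiableWithinAt
  unfold Zf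
  refine DifferentiableOn.sub ?_ ?_
  · refine DifferentiableOn.div ?_ (hW _ _) (fun s hs => W10_ne hx hx1 hs hT ha)
    exact (hfU.add (hW _ _)).mul (hfU.add (hW _ _))
  · refine (hW _ _).sub ?_
    exact ((pairL.differentiable.comp_differentiableOn hed)).clm_apply
      ((differentiableOn_const _).clm_apply hed)

lemma Zf_lipschitz (hx : 0 < x) (hx1 : x ≤ 1 / 1000) {s : ℂ} (hs : s ∈ Ux x)
    (hT : ∀ i s, 0 < s.re → ‖Th ((x ^ 204)⁻¹) T i s‖ ≤ 4 * (‖s‖ / s.re))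
    (hC : 0 < Cf) (hxC : Cf * (3 * x ^ 196) ≤ 1 / 4)
    (hf : ∀ s : ℂ, ‖s‖ < 1 / 2 → ‖f s - s‖ ≤ Cf * ‖s‖ ^ 2)
    {a b : C(Icc (2 : ℝ) ((x ^ 204)⁻¹), ℂ)} (ha : ‖a‖ ≤ 10 ^ 5 * x ^ 578)
    (hb : ‖b‖ ≤ 10 ^ 5 * x ^ 578) :
    ‖Zf ((x ^ 204)⁻¹) (x ^ 10) T f b s - Zf ((x ^ 204)⁻¹) (x ^ 10) T f a s‖
      ≤ 4 / 10 ^ 5 / x ^ 158 * ‖b - a‖ := by
  by_cases hab : b = a
  · rw [hab]; simp
  have hd : 0 < ‖b - a‖ := norm_pos_iff.2 (sub_ne_zero.2 hab)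
  set A : ℝ := 10 ^ 5 * x ^ 578 with hA
  have hA0 : 0 < A := by positivity
  set Ω : Set ℂ := {z | ‖a + z • (b - a)‖ < 2 * A} with hΩ
  have hΩo : IsOpen Ω := isOpen_lt (by fun_prop) continuous_const
  set c : ℂ := f s ^ 2 / pairL (eS ((x ^ 204)⁻¹) s) (Bop (x ^ 10) (eS ((x ^ 204)⁻¹) s)) with hc
  set g : ℂ → ℂ := fun z => Zf ((x ^ 204)⁻¹) (x ^ 10) T f (a + z • (b - a)) s - c with hg
  have hα : 2 * A * ((x ^ 204)⁻¹) ^ 2 ≤ 2 * 10 ^ 5 * x ^ 170 := by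
    rw [hA]; apply le_of_eq; field_simp
  have hW : ∀ i j, DifferentiableOn ℂ
      (fun z : ℂ => Wf ((x ^ 204)⁻¹) (x ^ 10) T (a + z • (b - a)) s i j) Ω :=
    fun i j => differentiableOn_Wf_z (by positivity) (fun i => tau_bound hx hs hT i)
      (re_pos_of_mem_Ux hx hs).le a (b - a) hα (num_q hx hx1) i j
  have hgd : DifferentiableOn ℂ g Ω := by
    rw [hg]
    unfold Zf
    refine DifferentiableOn.sub (DifferentiableOn.sub ?_ ?_) (differentiableOn_const _)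
    · refine DifferentiableOn.div ?_ (hW _ _) (fun z hz => W10_ne hx hx1 hs hT (le_of_lt hz))
      exact ((differentiableOn_const _).add (hW _ _)).mul ((differentiableOn_const _).add (hW _ _))
    · refine (hW _ _).sub ?_
      simp only [Aop_add, Aop_smul]
      fun_prop
  have hgb : ∀ z ∈ Ω, ‖g z‖ ≤ 2 * x ^ 420 := fun z hz =>
    Zf_close hx hx1 hs hT hC hxC hf (le_of_lt hz)
  -- the segment
  set r : ℝ := A / ‖b - a‖ with hr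
  have hr0 : 0 < r := by positivity
  have hseg : ∀ z0 ∈ segment ℝ (0 : ℂ) 1, Metric.closedBall z0 (r / 2) ⊆ Ω := by
    intro z0 hz0 z hz
    obtain ⟨u, v, hu, hv, huv, rfl⟩ := hz0
    have h0 : u • (0 : ℂ) + v • (1 : ℂ) = (v : ℂ) := by simp
    rw [h0] at hz
    have e : a + z • (b - a) = (u : ℂ) • a + (v : ℂ) • b + (z - v) • (b - a) := by
      have : (u : ℂ) = 1 - v := by rw [eq_sub_iff_add_eq]; exact_mod_cast huv
      rw [this]; module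
    have h1 : ‖z - v‖ ≤ r / 2 := by
      have := hz; rw [Metric.mem_closedBall, dist_eq_norm] at this; exact this
    change ‖a + z • (b - a)‖ < 2 * A
    rw [e]
    calc ‖(u : ℂ) • a + (v : ℂ) • b + (z - v) • (b - a)‖
        ≤ ‖(u : ℂ) • a‖ + ‖(v : ℂ) • b‖ + ‖(z - v) • (b - a)‖ :=
          (norm_add_le _ _).trans (add_le_add_left (norm_add_le _ _) _)
      _ = u * ‖a‖ + v * ‖b‖ + ‖z - v‖ * ‖b - a‖ := by
          rw [norm_smul, norm_smul, norm_smul, Complex.norm_real, Complex.norm_real,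
            Real.norm_of_nonneg hu, Real.norm_of_nonneg hv]
      _ ≤ u * A + v * A + r / 2 * ‖b - a‖ := by gcongr
      _ = A + A / 2 := by
          have : r * ‖b - a‖ = A := by rw [hr]; field_simp
          have h2 : u * A + v * A = A := by rw [← add_mul, huv, one_mul]
          rw [h2]; linarith
      _ < 2 * A := by linarith
  have hderiv : ∀ z0 ∈ segment ℝ (0 : ℂ) 1, ‖deriv g z0‖ ≤ 2 * x ^ 420 / (r / 2) := by
    intro z0 hz0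
    refine Complex.norm_deriv_le_of_forall_mem_sphere_norm_le (by positivity) ?_ ?_
    · refine DifferentiableOn.diffContOnCl ?_
      refine hgd.mono ?_
      rw [closure_ball _ (by positivity)]
      exact hseg z0 hz0
    · intro z hz
      exact hgb z (hseg z0 hz0 (Metric.sphere_subset_closedBall hz))
  have hmv := Convex.norm_image_sub_le_of_norm_deriv_le (𝕜 := ℂ) (f := g)
    (C := 2 * x ^ 420 / (r / 2)) (s := segment ℝ (0 : ℂ) 1) (x := 0) (y := 1)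
    (fun z hz => hgd.differentiableAt (hΩo.mem_nhds
      (hseg z hz (Metric.mem_closedBall_self (by positivity))))) hderiv (convex_segment _ _)
    (left_mem_segment _ _ _) (right_mem_segment _ _ _)
  have e1 : g 1 - g 0 = Zf ((x ^ 204)⁻¹) (x ^ 10) T f b s - Zf ((x ^ 204)⁻¹) (x ^ 10) T f a s := by
    have h1 : a + (1 : ℂ) • (b - a) = b := by rw [one_smul]; abel
    have h0 : a + (0 : ℂ) • (b - a) = a := by
      ext y
      change a y + (0 : ℂ) * (b - a) y = a y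
      rw [zero_mul, add_zero]
    rw [hg]
    simp only [h1, h0]; ring
  rw [e1] at hmv
  refine hmv.trans (le_of_eq ?_)
  rw [hr, hA]
  simp only [sub_zero, norm_one, mul_one]
  field_simp
  ring

end

end Pool.Agent.Helper98.CLTd
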